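import Pool.Agent.U84.SP.Phi2

set_option autoImplicit false
set_option linter.unusedSectionVars false

/-!
# Project SP (helper84), job StPsi: bounds by compactness
-/

open Set Topology Filter
open scoped ContDiff

namespace Pool.Agent.U186.SP

open Pool.Agent.Y184.SP Pool.Agent.U84.SP

/-- a uniform bound for the Levi form on a compact set -/
theorem lv_bound {T : E → ℝ} {C : Set E} (hC : IsCompact C) (hT : ∀ z ∈ C, ContDiffAt ℝ 2 T z) :
    ∃ M : ℝ, 0 ≤ M ∧ ∀ z ∈ C, ∀ v, |lv T z v| ≤ M * (‖v.1‖ ^ 2 + ‖v.2‖ ^ 2) := by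
  have h1 : IsCompact (C ×ˢ Metric.closedBall (0 : E) 1) := hC.prod (isCompact_closedBall 0 1)
  have h2 : ContinuousOn (fun p : E × E => lv T p.1 p.2) (C ×ˢ Metric.closedBall (0 : E) 1) := by
    rintro ⟨z, v⟩ hp
    exact (lv_cont v (hT z hp.1)).continuousWithinAt
  obtain ⟨M, hM⟩ := (h1.image_of_continuousOn h2).isBounded.exists_norm_le
  have hM' : ∀ z ∈ C, ∀ v : E, ‖v‖ ≤ 1 → |lv T z v| ≤ M := by
    intro z hz v hv
    have := hM (lv T z v) ⟨(z, v), ⟨hz, by simpa using hv⟩, rfl⟩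
    rwa [Real.norm_eq_abs] at this
  refine ⟨max M 0, le_max_right _ _, fun z hz v => ?_⟩
  by_cases hv : v = 0
  · rw [hv, lv_zero]
    simp
  have hv' : ‖v‖ ≠ 0 := norm_ne_zero_iff.2 hv
  have e : v = ((‖v‖ : ℝ) : ℂ) • ((((‖v‖ : ℝ) : ℂ)⁻¹) • v) := by
    rw [smul_smul, mul_inv_cancel₀ (by exact_mod_cast hv'), one_smul]
  have h3 : ‖(((‖v‖ : ℝ) : ℂ)⁻¹) • v‖ ≤ 1 := by
    rw [norm_smul, norm_inv, Complex.norm_real, norm_norm, inv_mul_cancel₀ hv']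
  have h4 := hM' z hz _ h3
  have h5 : lv T z v = ‖v‖ ^ 2 * lv T z ((((‖v‖ : ℝ) : ℂ)⁻¹) • v) := by
    conv_lhs => rw [e]
    rw [lv_hom _ _ (hT z hz), Complex.norm_real, norm_norm]
  rw [h5, abs_mul, abs_of_nonneg (by positivity : (0 : ℝ) ≤ ‖v‖ ^ 2)]
  have h6 : ‖v‖ ^ 2 ≤ ‖v.1‖ ^ 2 + ‖v.2‖ ^ 2 := by
    rcases max_cases ‖v.1‖ ‖v.2‖ with ⟨h, _⟩ | ⟨h, _⟩
    · have : ‖v‖ = ‖v.1‖ := h
      rw [this]; nlinarith [sq_nonneg ‖v.2‖]
    · have : ‖v‖ = ‖v.2‖ := h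
      rw [this]; nlinarith [sq_nonneg ‖v.1‖]
  calc ‖v‖ ^ 2 * |lv T z ((((‖v‖ : ℝ) : ℂ)⁻¹) • v)| ≤ ‖v‖ ^ 2 * max M 0 := by
        gcongr
        exact h4.trans (le_max_left _ _)
    _ ≤ (‖v.1‖ ^ 2 + ‖v.2‖ ^ 2) * max M 0 := by gcongr
    _ = _ := by ring

/-- the compact set of the points `(x, y)`, `x` in the fundamental square away from the corner,
`|y| ≤ 1` -/
def CC : Set E := {z | |z.1.re| ≤ 1 / 2 ∧ |z.1.im| ≤ 1 / 2 ∧ 1 / 8 ≤ ‖red z.1‖ ∧ ‖z.2‖ ≤ 1}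

theorem CC_compact : IsCompact CC := by
  apply Metric.isCompact_of_isClosed_isBounded
  · have h1 : Continuous fun z : E => |z.1.re| :=
      (Complex.continuous_re.comp continuous_fst).abs
    have h2 : Continuous fun z : E => |z.1.im| :=
      (Complex.continuous_im.comp continuous_fst).abs
    have h3 : Continuous fun z : E => ‖red z.1‖ := norm_red_cont.comp continuous_fst
    have h4 : Continuous fun z : E => ‖z.2‖ := by fun_prop
    exact (isClosed_le h1 continuous_const).inter ((isClosed_le h2 continuous_const).inter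
      ((isClosed_le continuous_const h3).inter (isClosed_le h4 continuous_const)))
  · rw [isBounded_iff_forall_norm_le]
    refine ⟨1, fun z hz => ?_⟩
    have h5 : ‖z.1‖ ≤ 1 := by
      refine (Complex.norm_le_abs_re_add_abs_im _).trans ?_
      linarith [hz.1, hz.2.1]
    exact max_le h5 hz.2.2.2

/-- translation invariance -/
theorem lv_per {T : E → ℝ} (hT : Per T) (z : E) (v : E) {l : ℂ} (hl : l ∈ Lam) :
    lv T (z.1 + l, z.2) v = lv T z v := by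
  unfold lv
  suffices h : (fun ζ : ℂ => T ((z.1 + l, z.2) + ζ • v)) = fun ζ : ℂ => T (z + ζ • v) by rw [h]
  funext ζ
  have : ((z.1 + l, z.2) : E) + ζ • v = ((z + ζ • v).1 + l, (z + ζ • v).2) := by
    ext
    · simp [add_right_comm]
    · simp
  rw [this]
  exact hT _ _ l hl

theorem red_red (x : ℂ) : red (red x) = red x := by
  have h := red_add x (Lam_neg (sub_red x))
  have e : x + -(x - red x) = red x := by ring
  rwa [e] at h


/-- bound on the strip `|y| ≤ 1`, away from the lattice -/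
theorem strip_bound {T : E → ℝ} (hT : Per T)
    (hc : ∀ z : E, z.1 ∉ Lam → ContDiffAt ℝ 2 T z) :
    ∃ M : ℝ, 0 ≤ M ∧ ∀ z : E, 1 / 8 ≤ ‖red z.1‖ → ‖z.2‖ ≤ 1 → ∀ v, |lv T z v| ≤ M * nm z v := by
  obtain ⟨M, hM0, hM⟩ := lv_bound CC_compact (T := T) (fun z hz => hc z (fun h => by
    have := hz.2.2.1
    rw [red_eq_zero.2 h, norm_zero] at this
    norm_num at this))
  refine ⟨4 * M, by positivity, fun z h1 h2 v => ?_⟩
  have h3 : ((red z.1, z.2) : E) ∈ CC := ⟨abs_re_red _, abs_im_red _, by rw [red_red]; exact h1, h2⟩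
  have h4 := hM _ h3 v
  have h5 : lv T z v = lv T (red z.1, z.2) v := by
    have h := lv_per hT ((red z.1, z.2) : E) v (sub_red z.1)
    rw [← h]
    congr 1
    ext <;> simp
  rw [h5]
  refine h4.trans ?_
  unfold nm
  have h6 : (1 + ‖z.2‖ ^ 2) ^ 2 ≤ 4 := by
    have : ‖z.2‖ ^ 2 ≤ 1 := by nlinarith [norm_nonneg z.2]
    nlinarith [sq_nonneg ‖z.2‖]
  have h7 : ‖v.2‖ ^ 2 / 4 ≤ ‖v.2‖ ^ 2 / (1 + ‖z.2‖ ^ 2) ^ 2 := by gcongr
  nlinarith [sq_nonneg ‖v.1‖, sq_nonneg ‖v.2‖]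

/-! ### the coordinate `1 / y` -/

theorem tr1_fd {z : E} (h : z.2 ≠ 0) (v : E) :
    fderiv ℂ (tr 1) z v = (v.1, -(z.2 ^ 2)⁻¹ * v.2) := by
  have h1 : HasFDerivAt (fun t : E => t.1) (ContinuousLinearMap.fst ℂ ℂ ℂ) z := hasFDerivAt_fst
  have h2 : HasFDerivAt (fun t : E => t.2⁻¹) ((-(z.2 ^ 2)⁻¹) • ContinuousLinearMap.snd ℂ ℂ ℂ) z :=
    (hasDerivAt_inv h).comp_hasFDerivAt z hasFDerivAt_snd
  have h3 : HasFDerivAt (tr 1) _ z := h1.prodMk h2
  rw [h3.fderiv]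
  simp

theorem tr1_tr1 {z : E} : tr 1 (tr 1 z) = z := by
  show ((z.1, z.2⁻¹⁻¹) : E) = z
  rw [inv_inv]

theorem nm_inv {z : E} (h : z.2 ≠ 0) (v : E) : nm (tr 1 z) (fderiv ℂ (tr 1) z v) = nm z v := by
  rw [tr1_fd h]
  have e : tr 1 z = (z.1, z.2⁻¹) := rfl
  unfold nm
  rw [e]
  simp only [norm_mul, norm_neg, norm_inv, norm_pow]
  have h1 := norm_pos_iff.2 h
  field_simp
  ring

/-- two functions which correspond to each other under `y ↦ 1/y` -/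
theorem two_bound {T T' : E → ℝ} (hT : Per T) (hT' : Per T')
    (hc : ∀ z : E, z.1 ∉ Lam → ContDiffAt ℝ 2 T z) (hc' : ∀ z : E, z.1 ∉ Lam → ContDiffAt ℝ 2 T' z)
    (hi : ∀ z : E, z.2 ≠ 0 → T (tr 1 z) = T' z) :
    ∃ M : ℝ, 0 ≤ M ∧ (∀ z : E, 1 / 8 ≤ ‖red z.1‖ → ∀ v, |lv T z v| ≤ M * nm z v) ∧
      ∀ z : E, 1 / 8 ≤ ‖red z.1‖ → ∀ v, |lv T' z v| ≤ M * nm z v := by
  obtain ⟨M, hM0, hM⟩ := strip_bound hT hc
  obtain ⟨M', hM0', hM'⟩ := strip_bound hT' hc'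
  have hnm : ∀ z v : E, 0 ≤ nm z v := fun z v => by unfold nm; positivity
  have hred : ∀ z : E, 1 / 8 ≤ ‖red z.1‖ → z.1 ∉ Lam := by
    intro z h1 h
    rw [red_eq_zero.2 h, norm_zero] at h1
    norm_num at h1
  have hO : ∀ z : E, z.2 ≠ 0 → ∀ᶠ t in 𝓝 z, t.2 ≠ 0 := fun z hz =>
    (isClosed_singleton.isOpen_compl.preimage continuous_snd).mem_nhds hz
  refine ⟨M + M', by positivity, fun z h1 v => ?_, fun z h1 v => ?_⟩
  · rcases le_or_gt ‖z.2‖ 1 with h2 | h2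
    · refine (hM z h1 h2 v).trans ?_
      nlinarith [hnm z v]
    · have hz : z.2 ≠ 0 := by
        intro h; rw [h, norm_zero] at h2; linarith
      have h3 : T =ᶠ[𝓝 z] fun t => T' (tr 1 t) := by
        filter_upwards [hO z hz] with t ht
        have ht' : (tr 1 t).2 ≠ 0 := inv_ne_zero ht
        rw [← hi _ ht', tr1_tr1]
      have hcz : ContDiffAt ℝ 2 T' (tr 1 z) := hc' (tr 1 z) (hred z h1)
      rw [lv_congr v h3, lv_comp (tr_cd (j := 1) (Or.inr hz)) hcz]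
      have h4 : ‖(tr 1 z).2‖ ≤ 1 := by
        show ‖z.2⁻¹‖ ≤ 1
        rw [norm_inv]
        exact inv_le_one_of_one_le₀ h2.le
      have h5 := hM' (tr 1 z) h1 h4 (fderiv ℂ (tr 1) z v)
      rw [nm_inv hz] at h5
      refine h5.trans ?_
      nlinarith [hnm z v]
  · rcases le_or_gt ‖z.2‖ 1 with h2 | h2
    · refine (hM' z h1 h2 v).trans ?_
      nlinarith [hnm z v]
    · have hz : z.2 ≠ 0 := by
        intro h; rw [h, norm_zero] at h2; linarith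
      have h3 : T' =ᶠ[𝓝 z] fun t => T (tr 1 t) := by
        filter_upwards [hO z hz] with t ht
        rw [hi t ht]
      have hcz : ContDiffAt ℝ 2 T (tr 1 z) := hc (tr 1 z) (hred z h1)
      rw [lv_congr v h3, lv_comp (tr_cd (j := 1) (Or.inr hz)) hcz]
      have h4 : ‖(tr 1 z).2‖ ≤ 1 := by
        show ‖z.2⁻¹‖ ≤ 1
        rw [norm_inv]
        exact inv_le_one_of_one_le₀ h2.le
      have h5 := hM (tr 1 z) h1 h4 (fderiv ℂ (tr 1) z v)
      rw [nm_inv hz] at h5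
      refine h5.trans ?_
      nlinarith [hnm z v]

end Pool.Agent.U186.SP
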