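import Pool.Agent.U186.SP.Sig
import Pool.Agent.U84.SP.Log
import Pool.Agent.W545.Orb.Max

set_option autoImplicit false

/-!
# Project SP (helper84), job StG: the Green function of `ℂ / ℤ[i]`
-/

open Complex Filter Topology Set
open scoped ContDiff

namespace Pool.Agent.U186.SP

open Pool.Agent.Y184.SP Pool.Agent.U84.SP

/-- `log |σ|²` -/
noncomputable def u (x : ℂ) : ℝ := Real.log (‖H171FV.sg x‖ ^ 2)

theorem u_quasi {l κ : ℂ} (hl : l ∈ Wg.Lam)
    (h : ∀ z ∉ Wg.Lam, H171FV.zt (z + l) = H171FV.zt z + κ) :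
    ∃ a : ℝ, ∀ z ∉ Wg.Lam, u (z + l) = u z + 2 * (κ * z).re + a := by
  obtain ⟨A, hA0, hA⟩ := sg_quasi hl h
  refine ⟨Real.log (‖A‖ ^ 2), fun z hz => ?_⟩
  have h1 : ‖A‖ ≠ 0 := norm_ne_zero_iff.2 hA0
  have h2 : ‖H171FV.sg z‖ ≠ 0 := norm_ne_zero_iff.2 (H171FV.sg_ne hz)
  unfold u
  rw [hA z hz, norm_mul, norm_mul, mul_pow, mul_pow, Complex.norm_exp,
    Real.log_mul (by positivity) (by positivity), Real.log_mul (by positivity) (by positivity),
    Real.log_pow (n := 2) (x := Real.exp _), Real.log_exp]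
  push_cast
  ring

/-- the Laplacian is translation invariant -/
theorem lap_lv {ρ : ℂ → ℝ} {z : ℂ} (h : ContDiffAt ℝ 2 ρ z) :
    Laplacian.laplacian ρ z = lv ρ z 1 := by
  rw [lv_eq _ h, lap_def, iteratedFDeriv_two_apply, iteratedFDeriv_two_apply]
  simp

theorem sg_cd (z : ℂ) : ContDiffAt ℂ ω H171FV.sg z :=
  (H171FV.sg_diff.analyticAt z).contDiffAt

theorem u_cd {z : ℂ} (hz : z ∉ Wg.Lam) : ContDiffAt ℝ ∞ u z :=
  cd_log_one (omega_real (sg_cd z)) (H171FV.sg_ne hz)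

theorem u_lv {z : ℂ} (hz : z ∉ Wg.Lam) : lv u z 1 = 0 :=
  lv_log_one 1 (sg_cd z) (H171FV.sg_ne hz)

/-- the quadratic part -/
noncomputable def Q (e a b : ℝ) (x : ℂ) : ℝ := e * ‖x‖ ^ 2 + a * x.re + b * x.im

theorem Q_cd (e a b : ℝ) (z : ℂ) : ContDiffAt ℝ ∞ (Q e a b) z := by
  unfold Q
  have h1 : ContDiffAt ℝ ∞ (fun x : ℂ => ‖x‖ ^ 2) z := contDiffAt_id.norm_sq ℝ
  have h2 : ContDiffAt ℝ ∞ (fun x : ℂ => x.re) z := Complex.reCLM.contDiff.contDiffAt
  have h3 : ContDiffAt ℝ ∞ (fun x : ℂ => x.im) z := Complex.imCLM.contDiff.contDiffAt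
  exact ((contDiffAt_const.mul h1).add (contDiffAt_const.mul h2)).add (contDiffAt_const.mul h3)

theorem lin_lv (L : ℂ →L[ℝ] ℝ) (z : ℂ) : lv (fun x => L x) z 1 = 0 := by
  have h : ContDiffAt ℝ 2 (fun x => L x) z := L.contDiff.contDiffAt
  rw [lv_eq _ h]
  have h1 : fderiv ℝ (fun x => L x) = fun _ => L := by
    funext x; exact L.fderiv
  rw [h1]
  simp

theorem Q_lv (e a b : ℝ) (z : ℂ) : lv (Q e a b) z 1 = 4 * e := by
  have h1 : ContDiffAt ℝ 2 (fun x : ℂ => ‖x‖ ^ 2) z := contDiffAt_id.norm_sq ℝ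
  have h2 : ContDiffAt ℝ 2 (fun x : ℂ => x.re) z := Complex.reCLM.contDiff.contDiffAt
  have h3 : ContDiffAt ℝ 2 (fun x : ℂ => x.im) z := Complex.imCLM.contDiff.contDiffAt
  have e1 : lv (fun x : ℂ => ‖x‖ ^ 2) z 1 = 4 := by
    have := lv_sq (f := fun x : ℂ => x) (z := z) 1 contDiffAt_id
    simpa using this
  have e2 : lv (fun x : ℂ => x.re) z 1 = 0 := lin_lv Complex.reCLM z
  have e3 : lv (fun x : ℂ => x.im) z 1 = 0 := lin_lv Complex.imCLM z
  unfold Q
  rw [lv_add (f := fun x : ℂ => e * ‖x‖ ^ 2 + a * x.re) (g := fun x : ℂ => b * x.im) 1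
    ((contDiffAt_const.mul h1).add (contDiffAt_const.mul h2)) (contDiffAt_const.mul h3),
    lv_add (f := fun x : ℂ => e * ‖x‖ ^ 2) (g := fun x : ℂ => a * x.re) 1
    (contDiffAt_const.mul h1) (contDiffAt_const.mul h2), lv_smul 1 e h1, lv_smul 1 a h2,
    lv_smul 1 b h3, e1, e2, e3]
  ring

theorem Q_one (e a b : ℝ) (z : ℂ) : Q e a b (z + 1) = Q e a b z + 2 * e * z.re + (e + a) := by
  unfold Q
  rw [Complex.sq_norm, Complex.sq_norm, Complex.normSq_apply, Complex.normSq_apply]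
  simp
  ring

theorem Q_I (e a b : ℝ) (z : ℂ) : Q e a b (z + I) = Q e a b z + 2 * e * z.im + (e + b) := by
  unfold Q
  rw [Complex.sq_norm, Complex.sq_norm, Complex.normSq_apply, Complex.normSq_apply]
  simp
  ring

/-- the constants -/
theorem consts : ∃ e a b : ℝ, e ≠ 0 ∧ (∀ z ∉ Wg.Lam, u (z + 1) - Q e a b (z + 1) = u z - Q e a b z) ∧
    (∀ z ∉ Wg.Lam, u (z + I) - Q e a b (z + I) = u z - Q e a b z) := by
  obtain ⟨η, hη, h1, h2⟩ := H171FV.exists_eta
  obtain ⟨a, ha⟩ := u_quasi one_mem h1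
  obtain ⟨b, hb⟩ := u_quasi (κ := -(I * η)) I_mem (fun z hz => by rw [h2 z hz]; ring)
  have him : η.im = 0 := by
    have hz : (1 + I) / 2 ∉ Wg.Lam := Wg.zeta_quasi_half
    set z : ℂ := (1 + I) / 2
    have hz1 : z + 1 ∉ Wg.Lam := fun h' => hz ((hmem one_mem z).1 h')
    have hz2 : z + I ∉ Wg.Lam := fun h' => hz ((hmem I_mem z).1 h')
    have e1 := ha _ hz2
    have e2 := hb _ hz1
    rw [hb z hz] at e1
    rw [ha z hz] at e2
    have e3 : z + I + 1 = z + 1 + I := by ring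
    rw [e3, e2] at e1
    simp only [mul_add, neg_mul, Complex.add_re, Complex.mul_re, Complex.mul_im, Complex.neg_re,
      Complex.I_re, Complex.I_im, Complex.one_re, Complex.one_im] at e1
    linarith
  have hre : η.re ≠ 0 := by
    intro h
    apply hη
    apply Complex.ext <;> simp [h, him]
  refine ⟨η.re, a - η.re, b - η.re, hre, fun z hz => ?_, fun z hz => ?_⟩
  · rw [ha z hz, Q_one]
    simp only [Complex.mul_re, him]
    ring
  · rw [hb z hz, Q_I]
    simp only [Complex.mul_re, neg_mul, Complex.neg_re, Complex.mul_im, Complex.I_re, Complex.I_im,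
      him]
    ring

/-- induction over the lattice -/
theorem lam_ind {α : Type*} (f : ℂ → α) (h1 : ∀ z, f (z + 1) = f z) (h2 : ∀ z, f (z + I) = f z) :
    ∀ x l, l ∈ Wg.Lam → f (x + l) = f x := by
  rintro x l ⟨m, n, rfl⟩
  have p1 : Function.Periodic f 1 := h1
  have pI : Function.Periodic f I := h2
  have a1 := (pI.int_mul n) (x + m)
  have a2 := (p1.int_mul m) x
  rw [mul_one] at a2
  rw [← add_assoc, a1, a2]

open Classical in
/-- the Green function -/
noncomputable def G (e a b : ℝ) (x : ℂ) : ℝ := if x ∈ Wg.Lam then 0 else u x - Q e a b x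

theorem G_per {e a b : ℝ} (h1 : ∀ z ∉ Wg.Lam, u (z + 1) - Q e a b (z + 1) = u z - Q e a b z)
    (h2 : ∀ z ∉ Wg.Lam, u (z + I) - Q e a b (z + I) = u z - Q e a b z) :
    ∀ x l, l ∈ Wg.Lam → G e a b (x + l) = G e a b x := by
  apply lam_ind
  · intro z
    unfold G
    by_cases hz : z ∈ Wg.Lam
    · rw [if_pos hz, if_pos ((hmem one_mem z).2 hz)]
    · rw [if_neg hz, if_neg (fun h => hz ((hmem one_mem z).1 h)), h1 z hz]
  · intro z
    unfold G
    by_cases hz : z ∈ Wg.Lam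
    · rw [if_pos hz, if_pos ((hmem I_mem z).2 hz)]
    · rw [if_neg hz, if_neg (fun h => hz ((hmem I_mem z).1 h)), h2 z hz]

theorem G_evt {e a b : ℝ} {x : ℂ} (hx : x ∉ Wg.Lam) :
    G e a b =ᶠ[𝓝 x] fun z => u z - Q e a b z := by
  filter_upwards [evt_ne hx] with z hz
  unfold G
  rw [if_neg hz]

theorem G_cd {e a b : ℝ} {x : ℂ} (hx : x ∉ Wg.Lam) : ContDiffAt ℝ ∞ (G e a b) x :=
  ((u_cd hx).sub (Q_cd e a b x)).congr_of_eventuallyEq (G_evt hx)

theorem G_lap {e a b : ℝ} {x : ℂ} (hx : x ∉ Wg.Lam) :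
    Laplacian.laplacian (G e a b) x = -(4 * e) := by
  rw [lap_lv ((G_cd hx).of_le two_le), lv_congr 1 (G_evt hx),
    lv_sub 1 ((u_cd hx).of_le two_le) ((Q_cd e a b x).of_le two_le), u_lv hx, Q_lv]
  ring

/-- `exp G` extended by zero -/
noncomputable def P (e a b : ℝ) (x : ℂ) : ℝ := ‖H171FV.sg x‖ ^ 2 * Real.exp (-(Q e a b x))

theorem P_eq {e a b : ℝ} {x : ℂ} (hx : x ∉ Wg.Lam) : P e a b x = Real.exp (G e a b x) := by
  have h := norm_pos_iff.2 (H171FV.sg_ne hx)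
  unfold P G u
  rw [if_neg hx, Real.exp_sub, Real.exp_log (by positivity), Real.exp_neg]
  rfl

theorem P_cont (e a b : ℝ) : Continuous (P e a b) := by
  unfold P Q
  have := H171FV.sg_diff.continuous
  have h1 := Complex.continuous_re
  have h2 := Complex.continuous_im
  fun_prop

theorem dense_compl : Dense ((Wg.Lam : Set ℂ)ᶜ) := by
  have h : (Wg.Lam : Set ℂ).Countable := Wg.zeta_quasi_countable
  exact h.dense_compl ℝ

theorem P_per {e a b : ℝ} (h1 : ∀ z ∉ Wg.Lam, u (z + 1) - Q e a b (z + 1) = u z - Q e a b z)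
    (h2 : ∀ z ∉ Wg.Lam, u (z + I) - Q e a b (z + I) = u z - Q e a b z) :
    ∀ x l, l ∈ Wg.Lam → P e a b (x + l) = P e a b x := by
  intro x l hl
  have h : (fun x => P e a b (x + l)) = P e a b := by
    apply Continuous.ext_on dense_compl ((P_cont e a b).comp (continuous_id.add continuous_const))
      (P_cont e a b)
    intro z hz
    have hz' : z ∉ Wg.Lam := hz
    have hz1 : z + l ∉ Wg.Lam := fun h' => hz' ((hmem hl z).1 h')
    show P e a b (z + l) = P e a b z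
    rw [P_eq hz', P_eq hz1, G_per h1 h2 z l hl]
  exact congrFun h x

theorem e_pos {e a b : ℝ} (he : e ≠ 0)
    (h1 : ∀ z ∉ Wg.Lam, u (z + 1) - Q e a b (z + 1) = u z - Q e a b z)
    (h2 : ∀ z ∉ Wg.Lam, u (z + I) - Q e a b (z + I) = u z - Q e a b z) : 0 < e := by
  by_contra hle
  have hlt : e < 0 := lt_of_le_of_ne (not_lt.1 hle) he
  -- the maximum of `P`
  have hK : IsCompact (Metric.closedBall (0 : ℂ) 2) := isCompact_closedBall 0 2
  obtain ⟨x0, _, hx0⟩ := hK.exists_isMaxOn ⟨0, by simp⟩ (P_cont e a b).continuousOn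
  have hmax : ∀ y, P e a b y ≤ P e a b x0 := by
    intro y
    have h3 : y - ((⌊y.re⌋ : ℂ) + (⌊y.im⌋ : ℂ) * I) ∈ Metric.closedBall (0 : ℂ) 2 := by
      rw [mem_closedBall_zero_iff]
      have e1 : (y - ((⌊y.re⌋ : ℂ) + (⌊y.im⌋ : ℂ) * I)).re = Int.fract y.re := by
        simp
      have e2 : (y - ((⌊y.re⌋ : ℂ) + (⌊y.im⌋ : ℂ) * I)).im = Int.fract y.im := by
        simp
      refine (Complex.norm_le_abs_re_add_abs_im _).trans ?_
      rw [e1, e2, abs_of_nonneg (Int.fract_nonneg _), abs_of_nonneg (Int.fract_nonneg _)]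
      linarith [(Int.fract_lt_one y.re).le, (Int.fract_lt_one y.im).le]
    have hm : -((⌊y.re⌋ : ℂ) + (⌊y.im⌋ : ℂ) * I) ∈ Wg.Lam := neg_mem ⟨_, _, rfl⟩
    have h4 := P_per h1 h2 y _ hm
    rw [← sub_eq_add_neg] at h4
    rw [← h4]
    exact hx0 h3
  have hz : (1 + I) / 2 ∉ Wg.Lam := Wg.zeta_quasi_half
  have hpos : 0 < P e a b x0 := by
    refine lt_of_lt_of_le ?_ (hmax ((1 + I) / 2))
    rw [P_eq hz]
    exact Real.exp_pos _
  have hx : x0 ∉ Wg.Lam := by
    intro h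
    have h3 := P_per h1 h2 0 x0 h
    rw [zero_add] at h3
    rw [h3] at hpos
    unfold P at hpos
    rw [sg_zero.1] at hpos
    simp at hpos
  have hloc : IsLocalMax (G e a b) x0 := by
    filter_upwards [evt_ne hx] with z hz'
    have := hmax z
    rw [P_eq hz', P_eq hx] at this
    exact Real.exp_le_exp.1 this
  have h5 := Pool.Agent.W545.Orb.laplacian_nonpos ((G_cd hx).of_le two_le) hloc
  rw [G_lap hx] at h5
  linarith

/-- `σ(x) / x` -/
noncomputable def sx : ℂ → ℂ := dslope H171FV.sg 0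

theorem sx_an (x : ℂ) : ContDiffAt ℂ ω sx x := by
  have h : Differentiable ℂ sx := by
    intro y
    have h1 : DifferentiableOn ℂ (dslope H171FV.sg 0) Set.univ :=
      (Complex.differentiableOn_dslope Filter.univ_mem).2 H171FV.sg_diff.differentiableOn
    exact (h1 y (Set.mem_univ y)).differentiableAt Filter.univ_mem
  exact (h.analyticAt x).contDiffAt

theorem sx_mul (x : ℂ) (hx : x ≠ 0) : H171FV.sg x = x * sx x := by
  unfold sx
  rw [dslope_of_ne _ hx, slope_def_field, sg_zero.1]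
  field_simp
  ring

theorem sx_ne {x : ℂ} (hx : ‖x‖ < 1 / 2) : sx x ≠ 0 := by
  by_cases h : x = 0
  · rw [h]
    unfold sx
    rw [dslope_same]
    exact sg_zero.2
  · intro h0
    have h1 := sx_mul x h
    rw [h0, mul_zero] at h1
    exact H171FV.sg_ne (fun hm => h (lam_small hm (by linarith))) h1

theorem t : StG := by
  obtain ⟨e, a, b, he, h1, h2⟩ := consts
  have hpos := e_pos he h1 h2
  refine ⟨G e a b, fun x => Real.log (‖sx x‖ ^ 2) - Q e a b x, 4 * e, ?_⟩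
  constructor
  · linarith
  · intro x l hl
    exact G_per h1 h2 x l ((mem_iff l).1 hl)
  · intro x hx
    exact G_cd (fun h => hx ((mem_iff x).2 h))
  · intro x hx
    exact G_lap (fun h => hx ((mem_iff x).2 h))
  · intro x hx
    exact (cd_log_one (omega_real (sx_an x)) (sx_ne hx)).sub (Q_cd e a b x)
  · intro x hx hx0
    have hm : x ∉ Wg.Lam := fun h => hx0 (lam_small h (by linarith))
    have h3 : ‖x‖ ≠ 0 := norm_ne_zero_iff.2 hx0
    have h4 : ‖sx x‖ ≠ 0 := norm_ne_zero_iff.2 (sx_ne hx)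
    unfold G u
    rw [if_neg hm, sx_mul x hx0, norm_mul, mul_pow, Real.log_mul (by positivity) (by positivity)]
    ring

end Pool.Agent.U186.SP
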