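import Pool.Agent.U186.SP.TT

set_option autoImplicit false
set_option linter.unusedSectionVars false

/-!
# Project SP (helper84), job StPsi: the Kähler form
-/

open Set Topology Filter
open scoped ContDiff

namespace Pool.Agent.U186.SP

open Pool.Agent.Y184.SP Pool.Agent.U84.SP

/-- the Laplacian is translation invariant -/
theorem lap_lv1 {ρ : ℂ → ℝ} {z : ℂ} (h : ContDiffAt ℝ 2 ρ z) :
    Laplacian.laplacian ρ z = lv ρ z 1 := by
  rw [lv_eq _ h, lap_def, iteratedFDeriv_two_apply, iteratedFDeriv_two_apply]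
  simp

/-- composition of a function of one variable with a holomorphic function -/
theorem lv_one {g : ℂ → ℝ} {f : E → ℂ} {z : E} (v : E) (hf : ContDiffAt ℂ ω f z)
    (hg : ContDiffAt ℝ 2 g (f z)) :
    lv (fun t => g (f t)) z v = ‖fderiv ℂ f z v‖ ^ 2 * lv g (f z) 1 := by
  rw [lv_comp hf hg]
  have := lv_hom (f := g) (z := f z) (fderiv ℂ f z v) 1 hg
  simpa using this

section green

variable {G h : ℂ → ℝ} {c : ℝ} (hG : IsGreen G h c)

include hG

theorem G_lv {x : ℂ} (hx : x ∉ Lam) : lv G x 1 = -c := by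
  rw [← lap_lv1 ((hG.smooth x hx).of_le two_le)]
  exact hG.lap x hx

theorem h_lv {x : ℂ} (hx : ‖x‖ < 1 / 2) : lv h x 1 = -c := by
  have hne : ∀ y : ℂ, ‖y‖ < 1 / 2 → y ≠ 0 → lv h y 1 = -c := by
    intro y hy hy0
    have hm : y ∉ Lam := notMem_Lam (by linarith) hy0
    have hO : IsOpen {t : ℂ | ‖t‖ < 1 / 2 ∧ t ≠ 0} :=
      (isOpen_lt continuous_norm continuous_const).inter isClosed_singleton.isOpen_compl
    have e : h =ᶠ[𝓝 y] fun t => G t - Real.log (‖t‖ ^ 2) := by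
      filter_upwards [hO.mem_nhds ⟨hy, hy0⟩] with t ht
      rw [hG.eq t ht.1 ht.2]
      ring
    have hc1 : ContDiffAt ℝ 2 (fun t : ℂ => Real.log (‖t‖ ^ 2)) y :=
      cd_log_one (f := fun t : ℂ => t) contDiffAt_id hy0
    rw [lv_congr 1 e, lv_sub 1 ((hG.smooth y hm).of_le two_le) hc1, G_lv hG hm]
    have := lv_log_one (f := fun t : ℂ => t) (z := y) 1 contDiffAt_id hy0
    rw [this, sub_zero]
  by_cases h0 : x = 0
  · subst h0
    have hc := lv_cont (ρ := h) (z := (0 : ℂ)) 1 ((hG.smooth_h 0 hx).of_le two_le)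
    have hc2 : ContinuousAt (fun y : ℂ => lv h y 1) 0 := by
      have : ContinuousAt (fun y : ℂ => (y, (1 : ℂ))) 0 := by fun_prop
      exact ContinuousAt.comp (g := fun p : ℂ × ℂ => lv h p.1 p.2) (f := fun y : ℂ => (y, (1 : ℂ))) hc this
    have h1 : Tendsto (fun y : ℂ => lv h y 1) (𝓝[≠] 0) (𝓝 (lv h 0 1)) :=
      hc2.tendsto.mono_left nhdsWithin_le_nhds
    have h2 : Tendsto (fun y : ℂ => lv h y 1) (𝓝[≠] 0) (𝓝 (-c)) := by
      refine tendsto_const_nhds.congr' ?_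
      have h3 : ∀ᶠ y : ℂ in 𝓝 0, ‖y‖ < 1 / 2 := by
        apply continuous_norm.continuousAt.eventually_lt continuousAt_const
        simp
      filter_upwards [nhdsWithin_le_nhds h3, self_mem_nhdsWithin] with y hy hy0
      exact (hne y hy hy0).symm
    exact tendsto_nhds_unique h1 h2
  · exact hne x hx h0

/-- local potentials of the measure of `G` -/
theorem green_loc (x0 : ℂ) : ∃ (g : ℂ → ℝ) (O : Set ℂ), IsOpen O ∧ x0 ∈ O ∧
    (∀ x ∈ O, ContDiffAt ℝ ∞ g x) ∧ (∀ x ∈ O, lv g x 1 = -c) ∧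
    ∀ x ∈ O, x ∉ Lam → lv (fun t => G t - g t) x 1 = 0 := by
  by_cases hx0 : x0 ∈ Lam
  · have hO : IsOpen {x : ℂ | ‖x - x0‖ < 1 / 2} := by
      have : Continuous fun x : ℂ => ‖x - x0‖ := by fun_prop
      exact isOpen_lt this continuous_const
    have hcd : ∀ x : ℂ, ‖x - x0‖ < 1 / 2 → ContDiffAt ℝ ∞ (fun t => h (t - x0)) x := by
      intro x hx
      exact (hG.smooth_h (x - x0) hx).comp x (contDiffAt_id.sub contDiffAt_const)
    refine ⟨fun x => h (x - x0), {x | ‖x - x0‖ < 1 / 2}, hO, by simp, hcd, ?_, ?_⟩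
    · intro x hx
      have h1 : ContDiffAt ℂ ω (fun t : ℂ => t - x0) x := contDiffAt_id.sub contDiffAt_const
      have h2 := lv_comp (v := (1 : ℂ)) h1 ((hG.smooth_h (x - x0) hx).of_le two_le)
      have h3 : fderiv ℂ (fun t : ℂ => t - x0) x 1 = 1 := by
        rw [fderiv_sub_const]; simp
      rw [h3, h_lv hG hx] at h2
      exact h2
    · intro x hx hm
      have h0 : x - x0 ≠ 0 := by
        intro h'
        rw [sub_eq_zero.1 h'] at hm
        exact hm hx0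
      have hO2 : IsOpen {t : ℂ | t - x0 ≠ 0} := by
        have : Continuous fun x : ℂ => x - x0 := by fun_prop
        exact isClosed_singleton.isOpen_compl.preimage this
      have e : (fun t => G t - h (t - x0)) =ᶠ[𝓝 x] fun t => Real.log (‖t - x0‖ ^ 2) := by
        filter_upwards [hO.mem_nhds hx, hO2.mem_nhds h0] with t ht ht0
        have h4 := hG.eq (t - x0) ht ht0
        have h5 := hG.per (t - x0) x0 hx0
        rw [sub_add_cancel] at h5
        rw [h5, h4]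
        ring
      rw [lv_congr 1 e]
      exact lv_log_one (f := fun t : ℂ => t - x0) 1 (contDiffAt_id.sub contDiffAt_const) h0
  · refine ⟨G, Lamᶜ, Lam_closed.isOpen_compl, hx0, fun x hx => hG.smooth x hx,
      fun x hx => G_lv hG hx, fun x hx hm => ?_⟩
    simp only [sub_self]
    exact lv_const 0 x 1

end green

/-- the Levi form of the base part -/
theorem base_lv {g : ℂ → ℝ} {c K : ℝ} {z : E} (v : E) (hg : ContDiffAt ℝ 2 g z.1)
    (hl : lv g z.1 1 = -c) :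
    lv (fun t : E => -(K * g t.1) + K * Real.log (1 + ‖t.2‖ ^ 2)) z v =
      K * c * ‖v.1‖ ^ 2 + 4 * K * (‖v.2‖ ^ 2 / (1 + ‖z.2‖ ^ 2) ^ 2) := by
  have h1 : ContDiffAt ℝ 2 (fun t : E => g t.1) z := hg.comp z contDiffAt_fst
  have h2 : ContDiffAt ℝ 2 (fun t : E => Real.log (1 + ‖t.2‖ ^ 2)) z := cd_log_1 contDiffAt_snd
  have h3 := lv_one (g := g) (f := fun t : E => t.1) (z := z) v contDiffAt_fst hg
  have h4 : fderiv ℂ (fun t : E => t.1) z v = v.1 := by simp [fderiv_fst]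
  have h5 : fderiv ℂ (fun t : E => t.2) z v = v.2 := by simp [fderiv_snd]
  rw [lv_add v (contDiffAt_const.mul h1).neg (contDiffAt_const.mul h2),
    lv_neg v (contDiffAt_const.mul h1), lv_smul v K h1, lv_smul v K h2, h3, h4, hl,
    lv_log_1 v (f := fun t : E => t.2) contDiffAt_snd, h5]
  ring

theorem base_cd {g : ℂ → ℝ} {K : ℝ} {z : E} (hg : ContDiffAt ℝ ∞ g z.1) :
    ContDiffAt ℝ ∞ (fun t : E => -(K * g t.1) + K * Real.log (1 + ‖t.2‖ ^ 2)) z := by
  have h1 : ContDiffAt ℝ ∞ (fun t : E => g t.1) z := hg.comp z contDiffAt_fst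
  have h2 : ContDiffAt ℝ ∞ (fun t : E => Real.log (1 + ‖t.2‖ ^ 2)) z := cd_log_1 contDiffAt_snd
  exact (contDiffAt_const.mul h1).neg.add (contDiffAt_const.mul h2)

theorem nm_pos (z : E) {v : E} (hv : v ≠ 0) : 0 < nm z v := by
  unfold nm
  by_cases h : v.1 = 0
  · have h2 : v.2 ≠ 0 := fun h2 => hv (Prod.ext h h2)
    have := norm_pos_iff.2 h2
    positivity
  · have := norm_pos_iff.2 h
    positivity

/-- the lower bound of the sum of the base part and of a function with logarithmic poles -/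
theorem sum_lb {g : ℂ → ℝ} {c K M : ℝ} {T : E → ℝ} {z : E} (v : E) (hg : ContDiffAt ℝ 2 g z.1)
    (hl : lv g z.1 1 = -c) (hT : ContDiffAt ℝ 2 T z) (h1 : -(M * nm z v) ≤ lv T z v)
    (hK1 : M + 1 ≤ K * c) (hK2 : M + 1 ≤ 4 * K) :
    nm z v ≤ lv (fun t : E => -(K * g t.1) + K * Real.log (1 + ‖t.2‖ ^ 2) + T t) z v := by
  have h2 : ContDiffAt ℝ 2 (fun t : E => -(K * g t.1) + K * Real.log (1 + ‖t.2‖ ^ 2)) z := by
    have h1 : ContDiffAt ℝ 2 (fun t : E => g t.1) z := hg.comp z contDiffAt_fst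
    have h2 : ContDiffAt ℝ 2 (fun t : E => Real.log (1 + ‖t.2‖ ^ 2)) z := cd_log_1 contDiffAt_snd
    exact (contDiffAt_const.mul h1).neg.add (contDiffAt_const.mul h2)
  rw [lv_add v h2 hT, base_lv v hg hl]
  unfold nm at h1 ⊢
  have h3 : 0 ≤ ‖v.2‖ ^ 2 / (1 + ‖z.2‖ ^ 2) ^ 2 := by positivity
  nlinarith [sq_nonneg ‖v.1‖, mul_nonneg (sub_nonneg.2 hK1) (sq_nonneg ‖v.1‖),
    mul_nonneg (sub_nonneg.2 hK2) h3]

/-- the potentials in the last three coordinate systems -/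
theorem four_lv {h : ℂ → ℝ} {c K : ℝ} {f g p q : E → ℂ} {z : E} (v : E) (hf : ContDiffAt ℂ ω f z)
    (hg : ContDiffAt ℂ ω g z) (hp : ContDiffAt ℂ ω p z) (hq : ContDiffAt ℂ ω q z)
    (hh : ContDiffAt ℝ 2 h (f z)) (hl : lv h (f z) 1 = -c) :
    lv (fun t : E => -(K * h (f t)) + (K - 2) * Real.log (1 + ‖g t‖ ^ 2) +
      Real.log (1 + ‖p t‖ ^ 2) + Real.log (1 + ‖q t‖ ^ 2)) z v =
      K * c * ‖fderiv ℂ f z v‖ ^ 2 +
        (K - 2) * (4 * ‖fderiv ℂ g z v‖ ^ 2 / (1 + ‖g z‖ ^ 2) ^ 2) +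
        4 * ‖fderiv ℂ p z v‖ ^ 2 / (1 + ‖p z‖ ^ 2) ^ 2 +
        4 * ‖fderiv ℂ q z v‖ ^ 2 / (1 + ‖q z‖ ^ 2) ^ 2 := by
  have c0 : ContDiffAt ℝ 2 (fun t : E => h (f t)) z := hh.comp z ((omega_real hf).of_le two_le)
  have c1 : ContDiffAt ℝ 2 (fun t : E => Real.log (1 + ‖g t‖ ^ 2)) z :=
    cd_log_1 ((omega_real hg).of_le two_le)
  have c2 : ContDiffAt ℝ 2 (fun t : E => Real.log (1 + ‖p t‖ ^ 2)) z :=
    cd_log_1 ((omega_real hp).of_le two_le)
  have c3 : ContDiffAt ℝ 2 (fun t : E => Real.log (1 + ‖q t‖ ^ 2)) z :=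
    cd_log_1 ((omega_real hq).of_le two_le)
  have d0 : ContDiffAt ℝ 2 (fun t : E => -(K * h (f t))) z := (contDiffAt_const.mul c0).neg
  have d1 : ContDiffAt ℝ 2 (fun t : E => (K - 2) * Real.log (1 + ‖g t‖ ^ 2)) z :=
    contDiffAt_const.mul c1
  rw [lv_add v ((d0.add d1).add c2) c3, lv_add v (d0.add d1) c2, lv_add v d0 d1,
    lv_neg v (contDiffAt_const.mul c0), lv_smul v K c0, lv_smul v (K - 2) c1,
    lv_one v hf hh, hl, lv_log_1 v hg, lv_log_1 v hp, lv_log_1 v hq]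
  ring

theorem four_cd {h : ℂ → ℝ} {K : ℝ} {f g p q : E → ℂ} {z : E} (hf : ContDiffAt ℂ ω f z)
    (hg : ContDiffAt ℂ ω g z) (hp : ContDiffAt ℂ ω p z) (hq : ContDiffAt ℂ ω q z)
    (hh : ContDiffAt ℝ ∞ h (f z)) :
    ContDiffAt ℝ ∞ (fun t : E => -(K * h (f t)) + (K - 2) * Real.log (1 + ‖g t‖ ^ 2) +
      Real.log (1 + ‖p t‖ ^ 2) + Real.log (1 + ‖q t‖ ^ 2)) z := by
  have c0 : ContDiffAt ℝ ∞ (fun t : E => h (f t)) z := hh.comp z (omega_real hf)
  have c1 : ContDiffAt ℝ ∞ (fun t : E => Real.log (1 + ‖g t‖ ^ 2)) z := cd_log_1 (omega_real hg)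
  have c2 : ContDiffAt ℝ ∞ (fun t : E => Real.log (1 + ‖p t‖ ^ 2)) z := cd_log_1 (omega_real hp)
  have c3 : ContDiffAt ℝ ∞ (fun t : E => Real.log (1 + ‖q t‖ ^ 2)) z := cd_log_1 (omega_real hq)
  exact (((contDiffAt_const.mul c0).neg.add (contDiffAt_const.mul c1)).add c2).add c3

end Pool.Agent.U186.SP
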