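import Pool.Agent.U186.SP.Psi

set_option autoImplicit false
set_option linter.unusedSectionVars false

/-!
# Project SP (helper84), job StPsi: the Kähler form, end of the proof
-/

open Set Topology Filter
open scoped ContDiff

namespace Pool.Agent.U186.SP

open Pool.Agent.Y184.SP Pool.Agent.U84.SP

theorem Psi_eq (G : ℂ → ℝ) (K : ℝ) (z : E) :
    Psi G K z = -(K * G z.1) + K * Real.log (1 + ‖z.2‖ ^ 2) + TT z := rfl

section

variable {G h : ℂ → ℝ} {c : ℝ} (hG : IsGreen G h c)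

include hG

/-- the potentials in the first coordinate system -/
theorem psi0 {K : ℝ} {z : E} (hz : z ∈ V 0) : ∃ g : ℂ → ℝ, ContDiffAt ℝ ∞ g z.1 ∧
    lv g z.1 1 = -c ∧
    PotAt (Psi G K) 0 z (fun t => -(K * g t.1) + K * Real.log (1 + ‖t.2‖ ^ 2) + TT t) := by
  obtain ⟨g, O, hO, hzO, hg1, hg2, hg3⟩ := green_loc hG z.1
  refine ⟨g, hg1 _ hzO, hg2 _ hzO, ?_, ?_⟩
  · refine smAt_open ((hO.preimage continuous_fst).inter (V_open 0)) ⟨hzO, hz⟩ fun t ht => ?_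
    exact (base_cd (hg1 _ ht.1)).add (TT_cd ht.2)
  · filter_upwards [(hO.preimage continuous_fst).mem_nhds hzO] with t ht hW v
    have e : (fun s : E => -(K * g s.1) + K * Real.log (1 + ‖s.2‖ ^ 2) + TT s - Psi G K (tr 0 s)) =
        fun s : E => K * (G s.1 - g s.1) := by
      funext s
      have : tr 0 s = s := rfl
      rw [this, Psi_eq]
      ring
    have hm : t.1 ∉ Lam := hW.1
    have c0 : ContDiffAt ℝ 2 (fun x => G x - g x) t.1 :=
      ((hG.smooth _ hm).of_le two_le).sub ((hg1 _ ht).of_le two_le)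
    have c1 : ContDiffAt ℝ 2 (fun s : E => G s.1 - g s.1) t := c0.comp t contDiffAt_fst
    rw [lev_lv, e, lv_smul v K c1, lv_one (g := fun x => G x - g x) (f := fun s : E => s.1) v
      contDiffAt_fst c0, hg3 _ ht hm]
    ring

/-- the potentials in the second coordinate system -/
theorem psi1 {K : ℝ} (z : E) : ∃ g : ℂ → ℝ, ContDiffAt ℝ ∞ g z.1 ∧
    lv g z.1 1 = -c ∧
    PotAt (Psi G K) 1 z (fun t => -(K * g t.1) + K * Real.log (1 + ‖t.2‖ ^ 2) + TT' t) := by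
  obtain ⟨g, O, hO, hzO, hg1, hg2, hg3⟩ := green_loc hG z.1
  refine ⟨g, hg1 _ hzO, hg2 _ hzO, ?_, ?_⟩
  · refine smAt_open (hO.preimage continuous_fst) hzO fun t ht => ?_
    exact (base_cd (hg1 _ ht)).add (TT'_cd t)
  · filter_upwards [(hO.preimage continuous_fst).mem_nhds hzO] with t ht hW v
    have ht2 : t.2 ≠ 0 := (W_ne hW).resolve_left (by simp)
    have hO2 : IsOpen {s : E | s.2 ≠ 0} := isClosed_singleton.isOpen_compl.preimage continuous_snd
    have e : (fun s : E => -(K * g s.1) + K * Real.log (1 + ‖s.2‖ ^ 2) + TT' s - Psi G K (tr 1 s))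
        =ᶠ[𝓝 t] fun s : E => K * (G s.1 - g s.1) + K * Real.log (‖s.2‖ ^ 2) := by
      filter_upwards [hO2.mem_nhds ht2] with s hs
      rw [Psi_eq, TT_inv hs]
      have : tr 1 s = (s.1, s.2⁻¹) := rfl
      rw [this]
      simp only []
      rw [log_inv_1 hs]
      ring
    have hm : t.1 ∉ Lam := hW.1
    have c0 : ContDiffAt ℝ 2 (fun x => G x - g x) t.1 :=
      ((hG.smooth _ hm).of_le two_le).sub ((hg1 _ ht).of_le two_le)
    have c1 : ContDiffAt ℝ 2 (fun s : E => G s.1 - g s.1) t := c0.comp t contDiffAt_fst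
    rw [lev_lv, lv_congr v e, lv_add v (contDiffAt_const.mul c1)
      (contDiffAt_const.mul (cd_log_snd ht2)), lv_smul v K c1, lv_smul v K (cd_log_snd ht2),
      lv_log_snd v ht2, lv_one (g := fun x => G x - g x) (f := fun s : E => s.1) v
      contDiffAt_fst c0, hg3 _ ht hm]
    ring

omit hG in
theorem h2cd (t : E) : ContDiffAt ℂ ω (fun t : E => t.1 * t.2) t :=
  contDiffAt_fst.mul contDiffAt_snd

omit hG in
theorem fd_fst (z v : E) : fderiv ℂ (fun t : E => t.1) z v = v.1 := by simp [fderiv_fst]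

omit hG in
theorem fd_snd (z v : E) : fderiv ℂ (fun t : E => t.2) z v = v.2 := by simp [fderiv_snd]

omit hG in
theorem fd_mul (z v : E) : fderiv ℂ (fun t : E => t.1 * t.2) z v = z.1 * v.2 + z.2 * v.1 := by
  have h1 : HasFDerivAt (fun t : E => t.1) (ContinuousLinearMap.fst ℂ ℂ ℂ) z := hasFDerivAt_fst
  have h2 : HasFDerivAt (fun t : E => t.2) (ContinuousLinearMap.snd ℂ ℂ ℂ) z := hasFDerivAt_snd
  have h3 : HasFDerivAt (fun t : E => t.1 * t.2) _ z := h1.mul h2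
  rw [h3.fderiv]
  simp

omit hG in
theorem fd_g2 (z v : E) : fderiv ℂ (fun t : E => t.2 + t.1 * t.2) z v =
    v.2 + (z.1 * v.2 + z.2 * v.1) := by
  have h1 : HasFDerivAt (fun t : E => t.1) (ContinuousLinearMap.fst ℂ ℂ ℂ) z := hasFDerivAt_fst
  have h2 : HasFDerivAt (fun t : E => t.2) (ContinuousLinearMap.snd ℂ ℂ ℂ) z := hasFDerivAt_snd
  have h3 : HasFDerivAt (fun t : E => t.2 + t.1 * t.2) _ z := h2.add (h1.mul h2)
  rw [h3.fderiv]
  simp

theorem psi2 {K : ℝ} {z : E} (hz : z ∈ V 2) (hK : 2 < K) : ∃ ρ, PotAt (Psi G K) 2 z ρ ∧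
    ∀ v, v ≠ 0 → 0 < lev ρ z v := by
  have hg : ∀ t : E, ContDiffAt ℂ ω (fun t : E => t.2 + t.1 * t.2) t := fun t =>
    contDiffAt_snd.add (contDiffAt_fst.mul contDiffAt_snd)
  have hq : ∀ t : E, ContDiffAt ℂ ω (fun t : E => t.1 ^ 2 * t.2) t := fun t =>
    (contDiffAt_fst.pow 2).mul contDiffAt_snd
  refine ⟨fun t : E => -(K * h (t.1 * t.2)) + (K - 2) * Real.log (1 + ‖t.2 + t.1 * t.2‖ ^ 2) +
      Real.log (1 + ‖t.1‖ ^ 2) + Real.log (1 + ‖t.1 ^ 2 * t.2‖ ^ 2), ⟨?_, ?_⟩, ?_⟩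
  · refine smAt_open (V_open 2) hz fun t ht => ?_
    exact four_cd (h2cd t) (hg t) contDiffAt_fst (hq t) (hG.smooth_h _ (by linarith [ht.1]))
  · filter_upwards [(V_open 2).mem_nhds hz] with t ht hW v
    obtain ⟨h1, h2⟩ := ne_of_trW2 hW
    have e : (fun t : E => -(K * h (t.1 * t.2)) + (K - 2) * Real.log (1 + ‖t.2 + t.1 * t.2‖ ^ 2) +
        Real.log (1 + ‖t.1‖ ^ 2) + Real.log (1 + ‖t.1 ^ 2 * t.2‖ ^ 2) - Psi G K (tr 2 t)) =ᶠ[𝓝 t]
        fun s : E => K * Real.log (‖s.1‖ ^ 2) + (K - 2) * Real.log (‖s.2‖ ^ 2) := by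
      filter_upwards [(V_open 2).mem_nhds ht, tr_W_open hW] with s hs hs2
      obtain ⟨h1, h2⟩ := ne_of_trW2 hs2
      have p1 := sq_pos h1
      have p2 := sq_pos h2
      have e1 : (tr 2 s).1 = s.1 * s.2 := rfl
      have e2 : (tr 2 s).2 = s.2 + s.1 * s.2 := rfl
      have hGe := hG.eq (s.1 * s.2) (by linarith [hs.1]) (mul_ne_zero h1 h2)
      rw [Psi_eq]
      unfold TT L1 L2
      rw [e1, e2, tr2_1 hs, chi_small hs.1, one_mul, add_sub_cancel_right, hGe]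
      have e4 : ‖s.2‖ ^ 2 + ‖s.1 * s.2‖ ^ 4 = ‖s.2‖ ^ 2 * (1 + ‖s.1 ^ 2 * s.2‖ ^ 2) := by
        simp only [norm_mul, norm_pow]
        ring
      have e5 : ‖s.1 * s.2‖ ^ 2 + ‖s.2‖ ^ 2 = ‖s.2‖ ^ 2 * (1 + ‖s.1‖ ^ 2) := by
        simp only [norm_mul]
        ring
      have e6 : ‖s.1 * s.2‖ ^ 2 = ‖s.1‖ ^ 2 * ‖s.2‖ ^ 2 := by rw [norm_mul, mul_pow]
      rw [e4, e5, e6, Real.log_div (by positivity) (by positivity),
        Real.log_div (by positivity) (by positivity),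
        Real.log_mul p2.ne' (by positivity), Real.log_mul p2.ne' (by positivity),
        Real.log_mul p1.ne' p2.ne']
      ring
    rw [lev_lv, lv_congr v e, lv_add v (contDiffAt_const.mul (cd_log_fst h1))
      (contDiffAt_const.mul (cd_log_snd h2)), lv_smul v K (cd_log_fst h1),
      lv_smul v (K - 2) (cd_log_snd h2), lv_log_snd v h2, lv_log_fst v h1]
    ring
  · intro v hv
    have hn : ‖z.1 * z.2‖ < 1 / 2 := by linarith [hz.1]
    rw [lev_lv, four_lv v (h2cd z) (hg z) contDiffAt_fst (hq z) ((hG.smooth_h _ hn).of_le two_le)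
      (h_lv hG hn), fd_mul, fd_g2, fd_fst]
    have hc := hG.pos
    have k1 : 0 < K := by linarith
    have k2 : 0 < K - 2 := by linarith
    by_cases hv1 : v.1 = 0
    · have hv2 : v.2 ≠ 0 := fun h2 => hv (Prod.ext hv1 h2)
      have p2 := norm_pos_iff.2 hv2
      rw [hv1]
      simp only [mul_zero, add_zero]
      by_cases hz1 : z.1 = 0
      · rw [hz1]
        simp only [zero_mul, add_zero]
        positivity
      · have p1 := norm_pos_iff.2 hz1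
        have e : 0 < ‖z.1 * v.2‖ := by rw [norm_mul]; positivity
        positivity
    · have p1 := norm_pos_iff.2 hv1
      positivity

theorem psi3 {K : ℝ} {z : E} (hz : z ∈ V 3) (hK : 2 < K) : ∃ ρ, PotAt (Psi G K) 3 z ρ ∧
    ∀ v, v ≠ 0 → 0 < lev ρ z v := by
  have hg : ∀ t : E, ContDiffAt ℂ ω (fun t : E => t.1 * t.2 ^ 2 + t.1 * t.2) t := fun t =>
    (contDiffAt_fst.mul (contDiffAt_snd.pow 2)).add (contDiffAt_fst.mul contDiffAt_snd)
  refine ⟨fun t : E => -(K * h (t.1 * t.2)) +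
      (K - 2) * Real.log (1 + ‖t.1 * t.2 ^ 2 + t.1 * t.2‖ ^ 2) +
      Real.log (1 + ‖t.2‖ ^ 2) + Real.log (1 + ‖t.1‖ ^ 2), ⟨?_, ?_⟩, ?_⟩
  · refine smAt_open (V_open 3) hz fun t ht => ?_
    exact four_cd (h2cd t) (hg t) contDiffAt_snd contDiffAt_fst
      (hG.smooth_h _ (by linarith [ht.1]))
  · filter_upwards [(V_open 3).mem_nhds hz] with t ht hW v
    obtain ⟨h1, h2⟩ := ne_of_trW3 hW
    have e : (fun t : E => -(K * h (t.1 * t.2)) +
        (K - 2) * Real.log (1 + ‖t.1 * t.2 ^ 2 + t.1 * t.2‖ ^ 2) +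
        Real.log (1 + ‖t.2‖ ^ 2) + Real.log (1 + ‖t.1‖ ^ 2) - Psi G K (tr 3 t)) =ᶠ[𝓝 t]
        fun s : E => (K - 2) * Real.log (‖s.1‖ ^ 2) + (K - 3) * Real.log (‖s.2‖ ^ 2) := by
      filter_upwards [(V_open 3).mem_nhds ht, tr_W_open hW] with s hs hs2
      obtain ⟨h1, h2⟩ := ne_of_trW3 hs2
      have p1 := sq_pos h1
      have p2 := sq_pos h2
      have e1 : (tr 3 s).1 = s.1 * s.2 := rfl
      have e2 : (tr 3 s).2 = s.1 * s.2 ^ 2 + s.1 * s.2 := rfl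
      have hGe := hG.eq (s.1 * s.2) (by linarith [hs.1]) (mul_ne_zero h1 h2)
      rw [Psi_eq]
      unfold TT L1 L2
      rw [e1, e2, tr3_1 hs, chi_small hs.1, one_mul, add_sub_cancel_right, hGe]
      have e4 : ‖s.1 * s.2 ^ 2‖ ^ 2 + ‖s.1 * s.2‖ ^ 4 =
          (‖s.1‖ ^ 2 * ‖s.2‖ ^ 2) * (‖s.2‖ ^ 2 * (1 + ‖s.1‖ ^ 2)) := by
        simp only [norm_mul, norm_pow]
        ring
      have e5 : ‖s.1 * s.2‖ ^ 2 + ‖s.1 * s.2 ^ 2‖ ^ 2 =
          (‖s.1‖ ^ 2 * ‖s.2‖ ^ 2) * (1 + ‖s.2‖ ^ 2) := by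
        simp only [norm_mul, norm_pow]
        ring
      have e6 : ‖s.1 * s.2‖ ^ 2 = ‖s.1‖ ^ 2 * ‖s.2‖ ^ 2 := by rw [norm_mul, mul_pow]
      have q1 : (0 : ℝ) < 1 + ‖s.1‖ ^ 2 := by positivity
      have q2 : (0 : ℝ) < 1 + ‖s.2‖ ^ 2 := by positivity
      have e7 : Real.log (‖s.1‖ ^ 2 * ‖s.2‖ ^ 2) = Real.log (‖s.1‖ ^ 2) + Real.log (‖s.2‖ ^ 2) :=
        Real.log_mul p1.ne' p2.ne'
      have e8 : Real.log ((‖s.1‖ ^ 2 * ‖s.2‖ ^ 2) * (‖s.2‖ ^ 2 * (1 + ‖s.1‖ ^ 2))) =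
          (Real.log (‖s.1‖ ^ 2) + Real.log (‖s.2‖ ^ 2)) +
          (Real.log (‖s.2‖ ^ 2) + Real.log (1 + ‖s.1‖ ^ 2)) := by
        rw [Real.log_mul (by positivity) (by positivity), e7, Real.log_mul p2.ne' q1.ne']
      have e9 : Real.log ((‖s.1‖ ^ 2 * ‖s.2‖ ^ 2) * (1 + ‖s.2‖ ^ 2)) =
          (Real.log (‖s.1‖ ^ 2) + Real.log (‖s.2‖ ^ 2)) + Real.log (1 + ‖s.2‖ ^ 2) := by
        rw [Real.log_mul (by positivity) q2.ne', e7]
      rw [e4, e5, e6, Real.log_div (by positivity) (by positivity),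
        Real.log_div (by positivity) (by positivity), e7, e8, e9]
      ring
    rw [lev_lv, lv_congr v e, lv_add v (contDiffAt_const.mul (cd_log_fst h1))
      (contDiffAt_const.mul (cd_log_snd h2)), lv_smul v (K - 2) (cd_log_fst h1),
      lv_smul v (K - 3) (cd_log_snd h2), lv_log_snd v h2, lv_log_fst v h1]
    ring
  · intro v hv
    have hn : ‖z.1 * z.2‖ < 1 / 2 := by linarith [hz.1]
    rw [lev_lv, four_lv v (h2cd z) (hg z) contDiffAt_snd contDiffAt_fst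
      ((hG.smooth_h _ hn).of_le two_le) (h_lv hG hn), fd_fst, fd_snd]
    have hc := hG.pos
    have k1 : 0 < K := by linarith
    have k2 : 0 < K - 2 := by linarith
    by_cases hv1 : v.1 = 0
    · have hv2 : v.2 ≠ 0 := fun h2 => hv (Prod.ext hv1 h2)
      have p2 := norm_pos_iff.2 hv2
      positivity
    · have p1 := norm_pos_iff.2 hv1
      positivity

theorem psi4 {K : ℝ} {z : E} (hz : z ∈ V 4) (hK : 2 < K) : ∃ ρ, PotAt (Psi G K) 4 z ρ ∧
    ∀ v, v ≠ 0 → 0 < lev ρ z v := by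
  have hg : ∀ t : E, ContDiffAt ℂ ω (fun t : E => t.1 ^ 2 * t.2 + t.1) t := fun t =>
    ((contDiffAt_fst.pow 2).mul contDiffAt_snd).add contDiffAt_fst
  refine ⟨fun t : E => -(K * h t.1) +
      (K - 2) * Real.log (1 + ‖t.1 ^ 2 * t.2 + t.1‖ ^ 2) +
      Real.log (1 + ‖t.1 * t.2‖ ^ 2) + Real.log (1 + ‖t.2‖ ^ 2), ⟨?_, ?_⟩, ?_⟩
  · refine smAt_open (V_open 4) hz fun t ht => ?_
    exact four_cd contDiffAt_fst (hg t) (h2cd t) contDiffAt_snd
      (hG.smooth_h _ (by linarith [ht.1]))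
  · filter_upwards [(V_open 4).mem_nhds hz] with t ht hW v
    have h1 := ne_of_trW4 hW
    have e : (fun t : E => -(K * h t.1) +
        (K - 2) * Real.log (1 + ‖t.1 ^ 2 * t.2 + t.1‖ ^ 2) +
        Real.log (1 + ‖t.1 * t.2‖ ^ 2) + Real.log (1 + ‖t.2‖ ^ 2) - Psi G K (tr 4 t)) =ᶠ[𝓝 t]
        fun s : E => (K - 3) * Real.log (‖s.1‖ ^ 2) := by
      filter_upwards [(V_open 4).mem_nhds ht, tr_W_open hW] with s hs hs2
      have h1 := ne_of_trW4 hs2
      have p1 := sq_pos h1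
      have e1 : (tr 4 s).1 = s.1 := rfl
      have e2 : (tr 4 s).2 = s.1 ^ 2 * s.2 + s.1 := rfl
      have hGe := hG.eq s.1 (by linarith [hs.1]) h1
      rw [Psi_eq]
      unfold TT L1 L2
      rw [e1, e2, tr4_1 hs, chi_small hs.1, one_mul, add_sub_cancel_right, hGe]
      have e4 : ‖s.1 ^ 2 * s.2‖ ^ 2 + ‖s.1‖ ^ 4 =
          (‖s.1‖ ^ 2 * ‖s.1‖ ^ 2) * (1 + ‖s.2‖ ^ 2) := by
        simp only [norm_mul, norm_pow]
        ring
      have e5 : ‖s.1‖ ^ 2 + ‖s.1 ^ 2 * s.2‖ ^ 2 = ‖s.1‖ ^ 2 * (1 + ‖s.1 * s.2‖ ^ 2) := by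
        simp only [norm_mul, norm_pow]
        ring
      rw [e4, e5, Real.log_div (by positivity) (by positivity),
        Real.log_div (by positivity) (by positivity),
        Real.log_mul (by positivity) (by positivity), Real.log_mul (by positivity) (by positivity),
        Real.log_mul p1.ne' p1.ne']
      ring
    rw [lev_lv, lv_congr v e, lv_smul v (K - 3) (cd_log_fst h1), lv_log_fst v h1]
    ring
  · intro v hv
    have hn : ‖z.1‖ < 1 / 2 := by linarith [hz.1]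
    rw [lev_lv, four_lv (h := h) (f := fun t : E => t.1) v contDiffAt_fst (hg z) (h2cd z)
      contDiffAt_snd ((hG.smooth_h _ hn).of_le two_le) (h_lv hG hn), fd_fst, fd_snd]
    have hc := hG.pos
    have k1 : 0 < K := by linarith
    have k2 : 0 < K - 2 := by linarith
    by_cases hv1 : v.1 = 0
    · have hv2 : v.2 ≠ 0 := fun h2 => hv (Prod.ext hv1 h2)
      have p2 := norm_pos_iff.2 hv2
      positivity
    · have p1 := norm_pos_iff.2 hv1
      positivity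

end

theorem psiW {G h : ℂ → ℝ} {c K M : ℝ} (hG : IsGreen G h c)
    (hM1 : ∀ z : E, z.1 ∉ Lam ∨ z.2 ≠ 0 → ∀ v, -(M * nm z v) ≤ lv TT z v)
    (hK1 : M + 1 ≤ K * c) (hK2 : M + 1 ≤ 4 * K) {z : E} (hz : z.1 ∉ Lam) (v : E) :
    nm z v ≤ lev (Psi G K) z v := by
  have h1 := sum_lb (g := G) (T := TT) v ((hG.smooth _ hz).of_le two_le) (G_lv hG hz)
      ((TT_cd (Or.inl hz)).of_le two_le) (hM1 z (Or.inl hz) v) hK1 hK2
  exact h1

/-- the Kähler form -/
theorem tPsi : StPsi := by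
  intro G h c hG
  obtain ⟨M, hM0, hM1, hM2⟩ := TT_lb
  have hc := hG.pos
  obtain ⟨K, hK1, hK2, hK3⟩ : ∃ K : ℝ, M + 1 ≤ K * c ∧ M + 1 ≤ 4 * K ∧ 2 < K := by
    have hq : 0 ≤ (M + 1) / c := by positivity
    refine ⟨(M + 1) / c + (M + 1) + 3, ?_, by linarith, by linarith⟩
    have : (M + 1) / c * c = M + 1 := div_mul_cancel₀ _ hc.ne'
    have h2 : ((M + 1) / c + (M + 1) + 3) * c = (M + 1) / c * c + (M + 1) * c + 3 * c := by ring
    rw [h2, this]
    have : 0 ≤ (M + 1) * c := by positivity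
    linarith
  refine ⟨K, 1, by linarith, one_pos, ?_, ?_⟩
  · intro z hz v
    rw [one_mul]
    exact psiW hG hM1 hK1 hK2 hz.1 v
  · intro j z hz
    fin_cases j
    · obtain ⟨g, hg1, hg2, hg3⟩ := psi0 hG (K := K) hz
      refine ⟨_, hg3, fun v hv => lt_of_lt_of_le (nm_pos z hv) ?_⟩
      exact sum_lb (g := g) (T := TT) v (hg1.of_le two_le) hg2 ((TT_cd hz).of_le two_le)
        (hM1 z hz v) hK1 hK2
    · obtain ⟨g, hg1, hg2, hg3⟩ := psi1 hG (K := K) z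
      refine ⟨_, hg3, fun v hv => lt_of_lt_of_le (nm_pos z hv) ?_⟩
      exact sum_lb (g := g) (T := TT') v (hg1.of_le two_le) hg2 ((TT'_cd z).of_le two_le)
        (hM2 z v) hK1 hK2
    · exact psi2 hG hz hK3
    · exact psi3 hG hz hK3
    · exact psi4 hG hz hK3

end Pool.Agent.U186.SP
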