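import Pool.Agent.U186.SP.Sig

set_option autoImplicit false

/-!
# Project SP (helper84), job StRes: there is no elliptic function with one simple pole
-/

open Complex Filter Topology Set
open scoped ContDiff

namespace Pool.Agent.U186.SP

open Pool.Agent.Y184.SP

theorem lam_ind' {α : Type*} (f : ℂ → α) (h1 : ∀ z, f (z + 1) = f z) (h2 : ∀ z, f (z + I) = f z) :
    ∀ x l, l ∈ Wg.Lam → f (x + l) = f x := by
  rintro x l ⟨m, n, rfl⟩
  have p1 : Function.Periodic f 1 := h1
  have pI : Function.Periodic f I := h2
  have a1 := (pI.int_mul n) (x + m)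
  have a2 := (p1.int_mul m) x
  rw [mul_one] at a2
  rw [← add_assoc, a1, a2]

theorem tRes : StRes := by
  intro g hg hper hlim
  classical
  obtain ⟨η, hη, hη1, hηI⟩ := H171FV.exists_eta
  have hg' : ∀ x ∉ Wg.Lam, DifferentiableAt ℂ g x := fun x hx => hg x (fun h => hx ((mem_iff x).1 h))
  have hper' : ∀ x l, l ∈ Wg.Lam → g (x + l) = g x := fun x l hl => hper x l ((mem_iff l).2 hl)
  set F : ℂ → ℂ := fun z => H171FV.zt z + g z with hF
  have hFd : ∀ x ∉ Wg.Lam, DifferentiableAt ℂ F x := fun x hx =>
    (H171FV.zt_deriv hx).differentiableAt.add (hg' x hx)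
  have hF1 : ∀ z ∉ Wg.Lam, F (z + 1) = F z + η := by
    intro z hz
    simp only [hF]
    rw [hη1 z hz, hper' z 1 one_mem]
    ring
  have hFI : ∀ z ∉ Wg.Lam, F (z + I) = F z + -(I * η) := by
    intro z hz
    simp only [hF]
    rw [hηI z hz, hper' z I I_mem]
    ring
  -- the value at zero
  have hzF : Tendsto (fun z => z * F z) (𝓝[≠] 0) (𝓝 0) := by
    have h := zt_lim.add hlim
    have e : (1 : ℂ) + -1 = 0 := by ring
    rw [e] at h
    refine h.congr' (Eventually.of_forall fun z => ?_)
    simp only [hF]
    ring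
  have hball : Metric.ball (0 : ℂ) 1 ∈ 𝓝 (0 : ℂ) := Metric.ball_mem_nhds _ one_pos
  have hdo : DifferentiableOn ℂ F (Metric.ball (0 : ℂ) 1 \ {0}) := by
    intro z hz
    refine (hFd z ?_).differentiableWithinAt
    intro hm
    exact hz.2 (lam_small hm (by simpa using hz.1))
  have hlo : (fun z => F z - F 0) =o[𝓝[≠] (0 : ℂ)] fun z => (z - 0)⁻¹ := by
    rw [Asymptotics.isLittleO_iff_tendsto']
    · have h1 : Tendsto (fun z : ℂ => z * F z - z * F 0) (𝓝[≠] 0) (𝓝 0) := by
        have h2 : Tendsto (fun z : ℂ => z * F 0) (𝓝[≠] 0) (𝓝 0) := by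
          have : ContinuousAt (fun z : ℂ => z * F 0) 0 := by fun_prop
          have h3 := this.tendsto
          rw [zero_mul] at h3
          exact h3.mono_left nhdsWithin_le_nhds
        simpa using hzF.sub h2
      refine h1.congr' (Eventually.of_forall fun z => ?_)
      simp only [sub_zero, div_inv_eq_mul]
      ring
    · filter_upwards [self_mem_nhdsWithin] with z hz h0
      exact absurd (inv_eq_zero.1 h0) (by simpa using hz)
  have hup := Complex.differentiableOn_update_limUnder_of_isLittleO hball hdo hlo
  set F0 : ℂ → ℂ := Function.update F 0 (limUnder (𝓝[≠] (0 : ℂ)) F) with hF0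
  have hF0e : ∀ z, z ≠ 0 → F0 z = F z := fun z hz => by rw [hF0, Function.update_of_ne hz]
  have hF0an : AnalyticAt ℂ F0 0 := hup.analyticAt hball
  -- the derivative
  set D : ℂ → ℂ := fun z => if z ∈ Wg.Lam then deriv F0 0 else deriv F z with hD
  have hD1 : ∀ z, D (z + 1) = D z := by
    intro z
    simp only [hD]
    by_cases hz : z ∈ Wg.Lam
    · rw [if_pos hz, if_pos ((hmem one_mem z).2 hz)]
    · rw [if_neg hz, if_neg (fun h => hz ((hmem one_mem z).1 h))]
      have e : (fun w => F (w + 1)) =ᶠ[𝓝 z] fun w => F w + η := by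
        filter_upwards [evt_ne hz] with w hw
        exact hF1 w hw
      have h1 := e.deriv_eq
      rw [deriv_comp_add_const, deriv_add_const] at h1
      exact h1
  have hDI : ∀ z, D (z + I) = D z := by
    intro z
    simp only [hD]
    by_cases hz : z ∈ Wg.Lam
    · rw [if_pos hz, if_pos ((hmem I_mem z).2 hz)]
    · rw [if_neg hz, if_neg (fun h => hz ((hmem I_mem z).1 h))]
      have e : (fun w => F (w + I)) =ᶠ[𝓝 z] fun w => F w + -(I * η) := by
        filter_upwards [evt_ne hz] with w hw
        exact hFI w hw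
      have h1 := e.deriv_eq
      rw [deriv_comp_add_const, deriv_add_const] at h1
      exact h1
  have hDp := lam_ind' D hD1 hDI
  have hD0 : DifferentiableAt ℂ D 0 := by
    have e : D =ᶠ[𝓝 0] deriv F0 := by
      filter_upwards [hball] with z hz
      by_cases h0 : z = 0
      · subst h0
        simp only [hD]
        rw [if_pos (zero_mem _)]
      · have hm : z ∉ Wg.Lam := fun h => h0 (lam_small h (by simpa using hz))
        simp only [hD]
        rw [if_neg hm]
        apply Filter.EventuallyEq.deriv_eq
        filter_upwards [isOpen_ne.mem_nhds h0] with w hw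
        exact (hF0e w hw).symm
    exact hF0an.deriv.differentiableAt.congr_of_eventuallyEq e
  have hDd : Differentiable ℂ D := by
    intro x
    by_cases hx : x ∈ Wg.Lam
    · have e : D = fun z => D (z - x) := by
        ext z
        have := hDp z (-x) (neg_mem hx)
        rw [← sub_eq_add_neg] at this
        exact this.symm
      have h0 : DifferentiableAt ℂ D (x - x) := by rw [sub_self]; exact hD0
      have h := DifferentiableAt.comp (g := D) (f := fun z => z - x) x h0
        (differentiableAt_id.sub_const x)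
      have h' : DifferentiableAt ℂ (fun z => D (z - x)) x := h
      rwa [← e] at h'
    · have e : D =ᶠ[𝓝 x] deriv F := by
        filter_upwards [evt_ne hx] with z hz
        simp only [hD]
        rw [if_neg hz]
      have h1 : AnalyticAt ℂ F x := by
        have : DifferentiableOn ℂ F ((Wg.Lam : Set ℂ)ᶜ) := fun z hz =>
          (hFd z hz).differentiableWithinAt
        exact this.analyticAt (hopen.mem_nhds hx)
      exact h1.deriv.differentiableAt.congr_of_eventuallyEq e
  have hDc : ∀ z, D z = D 0 := by
    intro z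
    have hb := (IsZLattice.isCompact_range_of_periodic Wg.L0.lattice D hDd.continuous
      (fun z w hw => hDp z w ((Wg.mem_L0 w).1 hw))).isBounded
    exact hDd.apply_eq_apply_of_bounded hb z 0
  set a := D 0 with ha
  have hFder : ∀ z ∉ Wg.Lam, deriv F z = a := by
    intro z hz
    rw [← hDc z]
    simp only [hD]
    rw [if_neg hz]
  have hder : ∀ z ∉ Wg.Lam, HasDerivAt (fun z => F z - a * z) 0 z := by
    intro z hz
    have h1 := (hFd z hz).hasDerivAt
    rw [hFder z hz] at h1
    have h2 : HasDerivAt (fun z : ℂ => a * z) a z := by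
      simpa using (hasDerivAt_id z).const_mul a
    have := h1.sub h2
    rw [sub_self] at this
    exact this
  obtain ⟨b, hb⟩ := hopen.exists_is_const_of_deriv_eq_zero Wg.zeta_quasi_preconn
    (fun z hz => (hder z hz).differentiableAt.differentiableWithinAt) (fun z hz => (hder z hz).deriv)
  have hb' : ∀ z ∉ Wg.Lam, F z - a * z = b := hb
  have hz : (1 + I) / 2 ∉ Wg.Lam := Wg.zeta_quasi_half
  set z : ℂ := (1 + I) / 2
  have hz1 : z + 1 ∉ Wg.Lam := fun h' => hz ((hmem one_mem z).1 h')
  have hz2 : z + I ∉ Wg.Lam := fun h' => hz ((hmem I_mem z).1 h')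
  have e0 := hb' z hz
  have e1 := hb' _ hz1
  have e2 := hb' _ hz2
  rw [hF1 z hz] at e1
  rw [hFI z hz] at e2
  have h3 : a = η := by linear_combination e0 - e1
  have h4 : a * I = -(I * η) := by linear_combination e0 - e2
  rw [h3] at h4
  apply hη
  have h5 : 2 * I * η = 0 := by linear_combination h4
  have h6 : (2 * I : ℂ) ≠ 0 := by simp
  exact (mul_eq_zero.1 h5).resolve_left h6

end Pool.Agent.U186.SP
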