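import Pool.Agent.H171R3.FV.Sig
import Pool.Agent.Y184.SP.Base

set_option autoImplicit false

/-!
# Project SP (helper84): preparations on the sigma function of the square lattice
-/

open Complex Filter Topology Set
open scoped ContDiff

namespace Pool.Agent.U186.SP

open Pool.Agent.Y184.SP

theorem mem_iff (x : ℂ) : x ∈ Lam ↔ x ∈ Wg.Lam := by
  constructor
  · rintro ⟨m, n, h⟩; exact ⟨m, n, h.symm ▸ rfl⟩
  · rintro ⟨m, n, h⟩; exact ⟨m, n, h.symm ▸ rfl⟩

theorem one_mem : (1 : ℂ) ∈ Wg.Lam := ⟨1, 0, by simp⟩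

theorem I_mem : I ∈ Wg.Lam := ⟨0, 1, by simp⟩

theorem hmem {l : ℂ} (hl : l ∈ Wg.Lam) (z : ℂ) : z + l ∈ Wg.Lam ↔ z ∈ Wg.Lam :=
  Wg.Lam.add_mem_cancel_right hl

theorem hopen : IsOpen ((Wg.Lam : Set ℂ)ᶜ) := Wg.zeta_quasi_open

theorem evt_ne {z : ℂ} (hz : z ∉ Wg.Lam) : ∀ᶠ w in 𝓝 z, w ∉ Wg.Lam := hopen.mem_nhds hz

/-- a lattice point of norm less than one is zero -/
theorem lam_small {x : ℂ} (hx : x ∈ Wg.Lam) (h : ‖x‖ < 1) : x = 0 := by
  obtain ⟨m, n, rfl⟩ := hx
  have h1 : ‖(m : ℂ) + (n : ℂ) * I‖ ^ 2 < 1 := by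
    have := norm_nonneg ((m : ℂ) + (n : ℂ) * I)
    nlinarith
  have h2 : ((m : ℝ)) ^ 2 + (n : ℝ) ^ 2 < 1 := by
    rw [Complex.sq_norm, Complex.normSq_apply] at h1
    simp at h1
    nlinarith
  have h3 : m ^ 2 + n ^ 2 < 1 := by exact_mod_cast h2
  have hm : m = 0 := by
    have : m ^ 2 < 1 := by nlinarith [sq_nonneg n]
    by_contra hne
    have := Int.one_le_abs hne
    nlinarith [sq_abs m, abs_nonneg m]
  have hn : n = 0 := by
    have : n ^ 2 < 1 := by nlinarith [sq_nonneg m]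
    by_contra hne
    have := Int.one_le_abs hne
    nlinarith [sq_abs n, abs_nonneg n]
  simp [hm, hn]

theorem near_zero : ∀ᶠ z in 𝓝[≠] (0 : ℂ), z ∉ Wg.Lam := by
  have : ∀ᶠ z in 𝓝 (0 : ℂ), ‖z‖ < 1 := by
    have h := continuous_norm.tendsto (0 : ℂ)
    rw [norm_zero] at h
    exact h.eventually (gt_mem_nhds one_pos)
  filter_upwards [nhdsWithin_le_nhds this, self_mem_nhdsWithin] with z hz hz0 hm
  exact hz0 (lam_small hm hz)

/-- `z ζ(z) → 1` -/
theorem zt_lim : Tendsto (fun z => z * H171FV.zt z) (𝓝[≠] 0) (𝓝 1) := by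
  have h := H171FV.zt_an.continuousAt.tendsto
  have h2 : Tendsto (fun z : ℂ => z * (H171FV.zt z - 1 / z) + 1) (𝓝 0)
      (𝓝 (0 * (H171FV.zt 0 - 1 / 0) + 1)) := (tendsto_id.mul h).add tendsto_const_nhds
  rw [zero_mul, zero_add] at h2
  refine (h2.mono_left nhdsWithin_le_nhds).congr' ?_
  filter_upwards [self_mem_nhdsWithin] with z hz
  have hz' : z ≠ 0 := hz
  field_simp
  ring

/-- the sigma function has a simple zero at `0` -/
theorem sg_zero : H171FV.sg 0 = 0 ∧ deriv H171FV.sg 0 ≠ 0 := by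
  have han : AnalyticAt ℂ H171FV.sg 0 := H171FV.sg_diff.analyticAt 0
  have hne : ¬ ∀ᶠ z in 𝓝 (0 : ℂ), H171FV.sg z = 0 := by
    intro h
    have h1 : ∀ᶠ z in 𝓝[≠] (0 : ℂ), False := by
      filter_upwards [nhdsWithin_le_nhds h, near_zero] with z h1 h2
      exact H171FV.sg_ne h2 h1
    exact (Filter.eventually_false_iff_eq_bot.1 h1) |> (NeBot.ne inferInstance)
  have hord : analyticOrderAt H171FV.sg 0 ≠ ⊤ := by
    rw [Ne, analyticOrderAt_eq_top]
    exact hne
  obtain ⟨n, hn⟩ := ENat.ne_top_iff_exists.1 hord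
  obtain ⟨g, hg, hg0, hev⟩ := (han.analyticOrderAt_eq_natCast (n := n)).1 hn.symm
  simp only [sub_zero, smul_eq_mul] at hev
  have hgd : ∀ᶠ z in 𝓝 (0 : ℂ), DifferentiableAt ℂ g z := by
    filter_upwards [hg.eventually_analyticAt] with z hz
    exact hz.differentiableAt
  have hev2 : ∀ᶠ z in 𝓝 (0 : ℂ), H171FV.sg =ᶠ[𝓝 z] fun w => w ^ n * g w :=
    (eventually_eventually_nhds.2 hev)
  have hg1 : ∀ᶠ z in 𝓝 (0 : ℂ), g z ≠ 0 := hg.continuousAt.eventually_ne hg0
  have key : ∀ᶠ z in 𝓝[≠] (0 : ℂ), z * H171FV.zt z = n + z * (deriv g z / g z) := by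
    filter_upwards [nhdsWithin_le_nhds hgd, nhdsWithin_le_nhds hev2, nhdsWithin_le_nhds hev,
      nhdsWithin_le_nhds hg1, near_zero, self_mem_nhdsWithin] with z h1 h2 h3 h4 h5 h6
    have hz : z ≠ 0 := h6
    have h7 := H171FV.sg_deriv h5
    have h8 : deriv H171FV.sg z = (n * z ^ (n - 1)) * g z + z ^ n * deriv g z := by
      rw [h2.deriv_eq]
      exact ((hasDerivAt_pow n z).mul h1.hasDerivAt).deriv
    rw [h8, h3] at h7
    have hzn : z ^ n ≠ 0 := pow_ne_zero _ hz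
    have h9 : (n : ℂ) * z ^ (n - 1) * z = n * z ^ n := by
      cases n with
      | zero => simp
      | succ k => rw [mul_assoc, Nat.add_sub_cancel, ← pow_succ]
    have h10 : z * (H171FV.zt z) * (z ^ n * g z) = (n + z * (deriv g z / g z)) * (z ^ n * g z) := by
      have : z * (H171FV.zt z) * (z ^ n * g z) = z * (H171FV.zt z * (z ^ n * g z)) := by ring
      rw [this, ← h7]
      have e : (n + z * (deriv g z / g z)) * (z ^ n * g z) =
          n * z ^ n * g z + z * z ^ n * deriv g z := by field_simp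
      rw [e, ← h9]
      ring
    exact mul_right_cancel₀ (mul_ne_zero hzn h4) h10
  have hlim : Tendsto (fun z => (n : ℂ) + z * (deriv g z / g z)) (𝓝[≠] 0) (𝓝 n) := by
    have h1 : ContinuousAt (fun z => (n : ℂ) + z * (deriv g z / g z)) 0 :=
      continuousAt_const.add (continuousAt_id.mul
        (hg.deriv.continuousAt.div hg.continuousAt hg0))
    have h2 := h1.tendsto
    simp only [zero_mul, add_zero] at h2
    exact h2.mono_left nhdsWithin_le_nhds
  have hn1 : (n : ℂ) = 1 := tendsto_nhds_unique (hlim.congr' (key.mono fun z hz => hz.symm)) zt_lim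
  have hn1' : n = 1 := by exact_mod_cast hn1
  subst hn1'
  have hsg : H171FV.sg =ᶠ[𝓝 0] fun w => w ^ 1 * g w := hev
  constructor
  · have := hsg.self_of_nhds
    rw [this]; simp
  · rw [hsg.deriv_eq]
    have : HasDerivAt (fun w => w ^ 1 * g w) (((1 : ℕ) * (0 : ℂ) ^ (1 - 1)) * g 0 + 0 ^ 1 * deriv g 0) 0 :=
      (hasDerivAt_pow 1 (0 : ℂ)).mul hg.differentiableAt.hasDerivAt
    rw [this.deriv]
    simpa using hg0

/-- quasi-periodicity of the sigma function, multiplicative form -/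
theorem sg_quasi {l κ : ℂ} (hl : l ∈ Wg.Lam)
    (h : ∀ z ∉ Wg.Lam, H171FV.zt (z + l) = H171FV.zt z + κ) :
    ∃ A : ℂ, A ≠ 0 ∧ ∀ z ∉ Wg.Lam, H171FV.sg (z + l) = A * exp (κ * z) * H171FV.sg z := by
  have hd : ∀ z ∉ Wg.Lam, HasDerivAt
      (fun z => H171FV.sg (z + l) * exp (-(κ * z)) / H171FV.sg z) 0 z := by
    intro z hz
    have hz1 : z + l ∉ Wg.Lam := fun h' => hz ((hmem hl z).1 h')
    have d1 : HasDerivAt (fun z => H171FV.sg (z + l)) (H171FV.zt (z + l) * H171FV.sg (z + l)) z := by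
      have := (H171FV.sg_diff (z + l)).hasDerivAt
      rw [H171FV.sg_deriv hz1] at this
      exact HasDerivAt.comp_add_const z l this
    have d2 : HasDerivAt (fun z => exp (-(κ * z))) (exp (-(κ * z)) * (-κ)) z := by
      have h0 : HasDerivAt (fun z : ℂ => κ * z) κ z := by
        simpa using (hasDerivAt_id z).const_mul κ
      have : HasDerivAt (fun z : ℂ => -(κ * z)) (-κ) z := h0.neg
      exact this.cexp
    have d3 : HasDerivAt H171FV.sg (H171FV.zt z * H171FV.sg z) z := by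
      have := (H171FV.sg_diff z).hasDerivAt
      rwa [H171FV.sg_deriv hz] at this
    have := (d1.mul d2).div d3 (H171FV.sg_ne hz)
    refine this.congr_deriv ?_
    simp only [Pi.mul_apply]
    rw [h z hz]
    have hne := H171FV.sg_ne hz
    field_simp
    ring
  obtain ⟨A, hA⟩ := hopen.exists_is_const_of_deriv_eq_zero Wg.zeta_quasi_preconn
    (fun z hz => (hd z hz).differentiableAt.differentiableWithinAt) (fun z hz => (hd z hz).deriv)
  have hA' : ∀ z ∉ Wg.Lam, H171FV.sg (z + l) = A * exp (κ * z) * H171FV.sg z := by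
    intro z hz
    have h1 : H171FV.sg (z + l) * exp (-(κ * z)) / H171FV.sg z = A := hA z hz
    have hne := H171FV.sg_ne hz
    rw [div_eq_iff hne] at h1
    have h2 : exp (-(κ * z)) * exp (κ * z) = 1 := by rw [← exp_add]; simp
    calc H171FV.sg (z + l) = H171FV.sg (z + l) * exp (-(κ * z)) * exp (κ * z) := by
          rw [mul_assoc, h2, mul_one]
      _ = _ := by rw [h1]; ring
  refine ⟨A, ?_, hA'⟩
  rintro rfl
  have hz : (1 + I) / 2 ∉ Wg.Lam := Wg.zeta_quasi_half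
  have hz1 : (1 + I) / 2 + l ∉ Wg.Lam := fun h' => hz ((hmem hl _).1 h')
  apply H171FV.sg_ne hz1
  rw [hA' _ hz]
  ring

end Pool.Agent.U186.SP
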