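import Pool.Agent.U186.SP.Bd

set_option autoImplicit false
set_option linter.unusedSectionVars false

/-!
# Project SP (helper84), job StPsi: the functions with logarithmic poles
-/

open Set Topology Filter
open scoped ContDiff

namespace Pool.Agent.U186.SP

open Pool.Agent.Y184.SP Pool.Agent.U84.SP

theorem num1_pos {y r : ℂ} (h : y ≠ 0 ∨ r ≠ 0) : 0 < ‖r‖ ^ 2 + ‖y - r‖ ^ 2 := by
  by_cases hr : r = 0
  · have := sq_pos (h.resolve_right (fun h => h hr))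
    simp [hr]
    exact this
  · have := norm_pos_iff.2 hr
    positivity

/-- `L₁` is smooth -/
theorem L1_cd {n : WithTop ℕ∞} {z : E} (h : ‖red z.1‖ < 1 / 2) (h2 : z.2 ≠ 0 ∨ red z.1 ≠ 0) :
    ContDiffAt ℝ n L1 z := by
  have hr := red_cdR (n := n) h
  have h3 := num1_pos h2
  unfold L1
  refine ContDiffAt.log (ContDiffAt.div ?_ ?_ (by positivity)) (by positivity)
  · exact (hr.norm_sq ℝ).add ((contDiffAt_snd.sub hr).norm_sq ℝ)
  · exact contDiffAt_const.add (contDiffAt_snd.norm_sq ℝ)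

/-- the function `L₁` in the coordinate `1 / y` -/
noncomputable def L1' (z : E) : ℝ :=
  Real.log ((‖red z.1 * z.2‖ ^ 2 + ‖1 - red z.1 * z.2‖ ^ 2) / (1 + ‖z.2‖ ^ 2))

theorem num1'_pos (a : ℂ) : 0 < ‖a‖ ^ 2 + ‖1 - a‖ ^ 2 := by
  by_cases hr : a = 0
  · rw [hr, sub_zero, norm_one]
    positivity
  · have h1 := norm_pos_iff.2 hr
    positivity

theorem L1'_cd {n : WithTop ℕ∞} {z : E} (h : ‖red z.1‖ < 1 / 2) : ContDiffAt ℝ n L1' z := by
  have hr := red_cdR (n := n) h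
  have h3 := num1'_pos (red z.1 * z.2)
  unfold L1'
  refine ContDiffAt.log (ContDiffAt.div ?_ ?_ (by positivity)) (by positivity)
  · exact ((hr.mul contDiffAt_snd).norm_sq ℝ).add
      ((contDiffAt_const.sub (hr.mul contDiffAt_snd)).norm_sq ℝ)
  · exact contDiffAt_const.add (contDiffAt_snd.norm_sq ℝ)

theorem L1_inv {z : E} (h : z.2 ≠ 0) : L1 (tr 1 z) = L1' z := by
  have e : tr 1 z = (z.1, z.2⁻¹) := rfl
  have h1 := sq_pos h
  unfold L1 L1'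
  rw [e]
  congr 1
  have h2 : ‖z.2⁻¹ - red z.1‖ ^ 2 = ‖1 - red z.1 * z.2‖ ^ 2 / ‖z.2‖ ^ 2 := by
    rw [← div_pow, ← norm_div]
    congr 2
    field_simp
  show (‖red z.1‖ ^ 2 + ‖z.2⁻¹ - red z.1‖ ^ 2) / (1 + ‖z.2⁻¹‖ ^ 2) = _
  rw [h2, norm_inv, inv_pow, norm_mul, mul_pow]
  field_simp
  ring

noncomputable def TT (z : E) : ℝ := chi z.1 * (L1 z + L2 z)

noncomputable def TT' (z : E) : ℝ := chi z.1 * (L1' z + L2' z)

theorem TT_inv {z : E} (h : z.2 ≠ 0) : TT (tr 1 z) = TT' z := by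
  unfold TT TT'
  rw [L1_inv h, L2_inv h]
  rfl

theorem TT_per : Per TT := by
  intro x y l hl
  unfold TT L1 L2
  simp only [red_add x hl, chi_per x hl]

theorem TT'_per : Per TT' := by
  intro x y l hl
  unfold TT' L1' L2'
  simp only [red_add x hl, chi_per x hl]

theorem TT_cd {z : E} (h : z.1 ∉ Lam ∨ z.2 ≠ 0) : ContDiffAt ℝ ∞ TT z := by
  have h' : z.2 ≠ 0 ∨ red z.1 ≠ 0 := by
    rcases h with h | h
    · exact Or.inr (red_ne h)
    · exact Or.inl h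
  unfold TT
  exact chi_mul_cd le_rfl fun h1 => (L1_cd (by linarith) h').add (L2_cd (by linarith) h')

theorem TT'_cd (z : E) : ContDiffAt ℝ ∞ TT' z := by
  unfold TT'
  exact chi_mul_cd le_rfl fun h1 => (L1'_cd (by linarith)).add (L2'_cd (by linarith))

/-- the lower bound where `chi = 1` -/
theorem quot_lb {f g p q : E → ℂ} {z : E} (v : E) (hf : ContDiffAt ℂ ω f z)
    (hg : ContDiffAt ℂ ω g z) (hp : ContDiffAt ℂ ω p z) (hq : ContDiffAt ℂ ω q z)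
    (h1 : 0 < ‖f z‖ ^ 2 + ‖g z‖ ^ 2) (h2 : 0 < ‖p z‖ ^ 2 + ‖q z‖ ^ 2) :
    -(8 * nm z v) ≤ lv (fun t : E => Real.log ((‖f t‖ ^ 2 + ‖g t‖ ^ 2) / (1 + ‖t.2‖ ^ 2)) +
      Real.log ((‖p t‖ ^ 2 + ‖q t‖ ^ 2) / (1 + ‖t.2‖ ^ 2))) z v := by
  have c1 : ContDiffAt ℝ 2 (fun t : E => ‖f t‖ ^ 2 + ‖g t‖ ^ 2) z :=
    (((omega_real hf).of_le two_le).norm_sq ℝ).add (((omega_real hg).of_le two_le).norm_sq ℝ)
  have c2 : ContDiffAt ℝ 2 (fun t : E => ‖p t‖ ^ 2 + ‖q t‖ ^ 2) z :=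
    (((omega_real hp).of_le two_le).norm_sq ℝ).add (((omega_real hq).of_le two_le).norm_sq ℝ)
  have e1 : ∀ᶠ t in 𝓝 z, 0 < ‖f t‖ ^ 2 + ‖g t‖ ^ 2 :=
    continuousAt_const.eventually_lt c1.continuousAt h1
  have e2 : ∀ᶠ t in 𝓝 z, 0 < ‖p t‖ ^ 2 + ‖q t‖ ^ 2 :=
    continuousAt_const.eventually_lt c2.continuousAt h2
  have l1 : ContDiffAt ℝ 2 (fun t : E => Real.log (‖f t‖ ^ 2 + ‖g t‖ ^ 2)) z := c1.log h1.ne'
  have l2 : ContDiffAt ℝ 2 (fun t : E => Real.log (‖p t‖ ^ 2 + ‖q t‖ ^ 2)) z := c2.log h2.ne'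
  have l3 : ContDiffAt ℝ 2 (fun t : E => Real.log (1 + ‖t.2‖ ^ 2)) z := cd_log_1 contDiffAt_snd
  have h4 : (fun t : E => Real.log ((‖f t‖ ^ 2 + ‖g t‖ ^ 2) / (1 + ‖t.2‖ ^ 2)) +
      Real.log ((‖p t‖ ^ 2 + ‖q t‖ ^ 2) / (1 + ‖t.2‖ ^ 2))) =ᶠ[𝓝 z]
      fun t => (Real.log (‖f t‖ ^ 2 + ‖g t‖ ^ 2) + Real.log (‖p t‖ ^ 2 + ‖q t‖ ^ 2)) -
        2 * Real.log (1 + ‖t.2‖ ^ 2) := by
    filter_upwards [e1, e2] with t h5 h6
    rw [Real.log_div h5.ne' (by positivity), Real.log_div h6.ne' (by positivity)]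
    ring
  rw [lv_congr v h4, lv_sub v (l1.add l2) (contDiffAt_const.mul l3), lv_add v l1 l2,
    lv_smul v 2 l3, lv_log_1 v (f := fun t : E => t.2) contDiffAt_snd]
  have h5 := lv_log_two_nonneg v hf hg h1
  have h6 := lv_log_two_nonneg v hp hq h2
  have h7 : fderiv ℂ (fun t : E => t.2) z v = v.2 := by simp [fderiv_snd]
  rw [h7]
  unfold nm
  have h8 : 4 * ‖v.2‖ ^ 2 / (1 + ‖z.2‖ ^ 2) ^ 2 = 4 * (‖v.2‖ ^ 2 / (1 + ‖z.2‖ ^ 2) ^ 2) := by ring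
  rw [h8]
  nlinarith [sq_nonneg ‖v.1‖]

theorem sq4 (a : ℂ) : ‖a‖ ^ 4 = ‖a ^ 2‖ ^ 2 := by
  rw [norm_pow]; ring

theorem TT_lb1 {z : E} (h : ‖red z.1‖ < 1 / 8) (h2 : z.2 ≠ 0 ∨ red z.1 ≠ 0) (v : E) :
    -(8 * nm z v) ≤ lv TT z v := by
  have hr : ContDiffAt ℂ ω (fun t : E => red t.1) z := red_cd (by linarith)
  have hs : ContDiffAt ℂ ω (fun t : E => t.2) z := contDiffAt_snd
  have h3 := quot_lb (f := fun t : E => red t.1) (g := fun t : E => t.2 - red t.1)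
    (p := fun t : E => t.2 - red t.1) (q := fun t : E => red t.1 ^ 2) v hr (hs.sub hr)
    (hs.sub hr) (hr.pow 2) (num1_pos h2) (by
      have := num2_pos h2
      rwa [sq4] at this)
  refine h3.trans_eq (lv_congr v ?_).symm
  filter_upwards [red_open.mem_nhds h] with t ht
  have ht' : ‖red t.1‖ < 1 / 8 := ht
  unfold TT L1 L2
  rw [chi_one ht'.le, sq4, one_mul]

theorem TT'_lb1 {z : E} (h : ‖red z.1‖ < 1 / 8) (v : E) :
    -(8 * nm z v) ≤ lv TT' z v := by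
  have hr : ContDiffAt ℂ ω (fun t : E => red t.1) z := red_cd (by linarith)
  have hs : ContDiffAt ℂ ω (fun t : E => t.2) z := contDiffAt_snd
  have hc : ContDiffAt ℂ ω (fun _ : E => (1 : ℂ)) z := contDiffAt_const
  have h3 := quot_lb (f := fun t : E => red t.1 * t.2) (g := fun t : E => 1 - red t.1 * t.2)
    (p := fun t : E => 1 - red t.1 * t.2) (q := fun t : E => red t.1 ^ 2 * t.2) v (hr.mul hs)
    (hc.sub (hr.mul hs)) (hc.sub (hr.mul hs)) ((hr.pow 2).mul hs) (num1'_pos _) (by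
      have := num2'_pos (red z.1) z.2
      rwa [sq4, ← mul_pow, ← norm_mul] at this)
  refine h3.trans_eq (lv_congr v ?_).symm
  filter_upwards [red_open.mem_nhds h] with t ht
  have ht' : ‖red t.1‖ < 1 / 8 := ht
  unfold TT' L1' L2'
  rw [chi_one ht'.le, sq4, one_mul, ← mul_pow, ← norm_mul]

/-- the lower bound -/
theorem TT_lb : ∃ M : ℝ, 0 ≤ M ∧
    (∀ z : E, z.1 ∉ Lam ∨ z.2 ≠ 0 → ∀ v, -(M * nm z v) ≤ lv TT z v) ∧
    ∀ z : E, ∀ v, -(M * nm z v) ≤ lv TT' z v := by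
  obtain ⟨M, hM0, hM1, hM2⟩ := two_bound TT_per TT'_per
    (fun z hz => (TT_cd (Or.inl hz)).of_le two_le) (fun z _ => (TT'_cd z).of_le two_le)
    (fun z hz => TT_inv hz)
  have hnm : ∀ z v : E, 0 ≤ nm z v := fun z v => by unfold nm; positivity
  refine ⟨M + 8, by positivity, fun z hz v => ?_, fun z v => ?_⟩
  · rcases lt_or_ge ‖red z.1‖ (1 / 8) with h | h
    · have h1 := TT_lb1 h (v := v) (by
        rcases hz with h' | h'
        · exact Or.inr (red_ne h')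
        · exact Or.inl h')
      nlinarith [hnm z v]
    · have h1 := neg_le_of_abs_le (hM1 z h v)
      nlinarith [hnm z v]
  · rcases lt_or_ge ‖red z.1‖ (1 / 8) with h | h
    · have h1 := TT'_lb1 h (v := v)
      nlinarith [hnm z v]
    · have h1 := neg_le_of_abs_le (hM2 z h v)
      nlinarith [hnm z v]

end Pool.Agent.U186.SP
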